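import Pool.Agent.Q195.WN.Final
import Pool.Agent.Q251.SHA.Final

/-! 11 and 15 points: the degrees which stay open, and the proportion of the multiplicities for which
all degrees are settled. -/

set_option autoImplicit false

namespace Pool.Agent.Q195.WN

open Finset Pool.Agent.H932R3

/-- the degrees which stay open for 15 points -/
def Left15 (m d : ℕ) : Prop :=
  3 ∣ d ∧ √15 * m + (33 - 8 * √15) / 5 ≤ d ∧ 2 * (d : ℝ) + 3 < √15 * (2 * m + 1) ∧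
    (2 * d + 3) ^ 2 + 6 ≠ 15 * (2 * m + 1) ^ 2

theorem left15 (m : ℕ) :
    ∃ F : MvPolynomial (Fin 15 × Fin 2) ℚ, F ≠ 0 ∧ ∀ {L : Type} [Field L] [CharZero L]
      (P : Fin 15 → Fin 2 → L), MvPolynomial.aeval (fun ij : Fin 15 × Fin 2 => P ij.1 ij.2) F ≠ 0 →
      ∀ d : ℕ, ¬ Left15 m d → ExpDim L (fun _ => m) P d := by
  obtain ⟨F1, h1, h1'⟩ := exp15 m
  obtain ⟨F2, h2, h2'⟩ := Pool.Agent.Q251.SHA.expDim15 m
  refine ⟨F1 * F2, mul_ne_zero h1 h2, fun P hP d hd => ?_⟩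
  rw [map_mul] at hP
  by_cases h : ¬ 3 ∣ d ∨ 5 * (d : ℝ) < 5 * (√15 * m) + (33 - 8 * √15) ∨
      √15 * (2 * m + 1) ≤ 2 * d + 3
  · exact h2' P (right_ne_zero_of_mul hP) d h
  · refine h1' P (left_ne_zero_of_mul hP) d fun h3 => hd ?_
    push Not at h
    obtain ⟨h4, h5, h6⟩ := h
    exact ⟨h4, by linarith, h6, h3.2.2.2⟩

theorem countl15 {P : ℕ → Prop} (h : ∀ m, ¬ P m → ∃ d, Left15 m d) {ε : ℝ} (hε : 0 < ε) :
    ∃ M0 : ℕ, ∀ M : ℕ, M0 ≤ M → (Set.ncard {m : ℕ | m < M ∧ ¬ P m} : ℝ) ≤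
      ((21 * √15 - 81) / 30 + ε) * M := by
  have hb : (3.87 : ℝ) < √15 := by
    rw [Real.lt_sqrt (by norm_num)]; norm_num
  obtain ⟨M0, hM0⟩ := countw (c := (33 - 8 * √15) / 15) (t := (√15 - 3) / 6) irr15' (by linarith)
    (P := P) ∅ (fun m hm => by
      obtain ⟨d, h1, h2, h3, h4⟩ := h m hm
      obtain ⟨e, rfl⟩ := h1
      right
      refine ⟨e, ?_, ?_⟩
      · push_cast at h2 ⊢; linarith
      · push_cast at h3 ⊢; linarith) hε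
  refine ⟨M0, fun M hM => ?_⟩
  have h1 := hM0 M hM
  have e : (√15 - 3) / 6 - (33 - 8 * √15) / 15 + ε = (21 * √15 - 81) / 30 + ε := by ring
  rwa [e] at h1

theorem numl15 : (21 * √(15 : ℝ) - 81) / 30 < 0.0111 := by
  have h : √15 < (3.87299 : ℝ) := by
    rw [Real.sqrt_lt' (by norm_num)]; norm_num
  linarith

/-- both numbers of points at once -/
theorem countboth {P Q : ℕ → Prop} (h : ∀ m, ¬ P m → ∃ d, Open11 m d)
    (h' : ∀ m, ¬ Q m → ∃ d, Left15 m d) {ε : ℝ} (hε : 0 < ε) :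
    ∃ M0 : ℕ, ∀ M : ℕ, M0 ≤ M → (Set.ncard {m : ℕ | m < M ∧ ¬ (P m ∧ Q m)} : ℝ) ≤
      ((1131 - 341 * √11) / 6 + (21 * √15 - 81) / 30 + ε) * M := by
  obtain ⟨M1, hM1⟩ := count11 h (half_pos hε)
  obtain ⟨M2, hM2⟩ := countl15 h' (half_pos hε)
  refine ⟨max M1 M2, fun M hM => ?_⟩
  have h1 := hM1 M ((le_max_left _ _).trans hM)
  have h2 := hM2 M ((le_max_right _ _).trans hM)
  have hsub : {m : ℕ | m < M ∧ ¬ (P m ∧ Q m)} ⊆ {m : ℕ | m < M ∧ ¬ P m} ∪ {m : ℕ | m < M ∧ ¬ Q m} := by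
    rintro m ⟨hm, hPQ⟩
    by_cases hP : P m
    · exact Or.inr ⟨hm, fun hQ => hPQ ⟨hP, hQ⟩⟩
    · exact Or.inl ⟨hm, hP⟩
  have hfin : ({m : ℕ | m < M ∧ ¬ P m} ∪ {m : ℕ | m < M ∧ ¬ Q m}).Finite :=
    (Set.finite_lt_nat M).subset (by
      rintro m (hm | hm)
      · exact hm.1
      · exact hm.1)
  have h3 := (Set.ncard_le_ncard hsub hfin).trans (Set.ncard_union_le _ _)
  have h3R : (Set.ncard {m : ℕ | m < M ∧ ¬ (P m ∧ Q m)} : ℝ) ≤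
      (Set.ncard {m : ℕ | m < M ∧ ¬ P m} : ℝ) + Set.ncard {m : ℕ | m < M ∧ ¬ Q m} := by
    exact_mod_cast h3
  have e : ((1131 - 341 * √11) / 6 + (21 * √15 - 81) / 30 + ε) * (M : ℝ) =
      ((1131 - 341 * √11) / 6 + ε / 2) * M + ((21 * √15 - 81) / 30 + ε / 2) * M := by ring
  rw [e]
  linarith

theorem numboth : (1131 - 341 * √(11 : ℝ)) / 6 + (21 * √(15 : ℝ) - 81) / 30 < 0.0163 := by
  have h := numb11
  have h' := numl15
  linarith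

end Pool.Agent.Q195.WN
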