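import Pool.Agent.Q195.WN.Red4

/-! The second degeneration, second case. -/

namespace Pool.Agent.Q195.WN

open Finset Polynomial Pool.Agent.TH176.Nag

variable {M h m b j : ℕ} {K δ : ℝ}

/-- a line with many points has a high point -/
theorem high {B : Finset (ℕ × ℕ)} {x : ℤ} {l lo : ℕ}
    (hc : l + 1 ≤ (B.filter (fun p => (p.1 : ℤ) - 1 * p.2 = x)).card)
    (hlo : ∀ p ∈ B, (p.1 : ℤ) - 1 * p.2 = x → lo ≤ p.2) :
    ∃ p ∈ B, (p.1 : ℤ) - 1 * p.2 = x ∧ lo + l ≤ p.2 := by
  classical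
  by_contra hcon
  push Not at hcon
  have h1 : (B.filter (fun p => (p.1 : ℤ) - 1 * p.2 = x)).card =
      ((B.filter (fun p => (p.1 : ℤ) - 1 * p.2 = x)).image Prod.snd).card := by
    rw [card_image_of_injOn]
    intro p hp q hq hpq
    rw [mem_coe, mem_filter] at hp hq
    have h3 := hp.2
    have h4 := hq.2
    refine Prod.ext ?_ hpq
    have hpq' : p.2 = q.2 := hpq
    omega
  have h2 : ((B.filter (fun p => (p.1 : ℤ) - 1 * p.2 = x)).image Prod.snd).card ≤ l := by
    refine (card_le_card (t := Ico lo (lo + l)) ?_).trans (by simp)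
    intro u hu
    obtain ⟨q, hq, rfl⟩ := mem_image.1 hu
    rw [mem_filter] at hq
    exact mem_Ico.2 ⟨hlo q hq.1 hq.2, hcon q hq.1 hq.2⟩
  omega

theorem countE (hN : Nm M h m b j K δ) {B : Finset (ℕ × ℕ)}
    (hB : ∀ p ∈ B, 1 ≤ p.1 ∧ p.2 < 2 * p.1 ∧ (p.1 : ℝ) + K * p.2 ≤ K * h ∧
      (p.2 < m → (p.1 : ℝ) ≤ K * ((h : ℝ) - p.2) - (M + 1) * ((m : ℝ) - p.2)))
    (l : ℕ) (hl : l ≤ m) (C : Finset ℤ)
    (hC : ∀ x ∈ C, l + 1 ≤ (B.filter (fun p => (p.1 : ℤ) - 1 * p.2 = x)).card) :
    C.card + l ≤ m := by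
  classical
  have hK0 := hN.K0
  have hKM : 0 < K - M := by linarith [hN.hMK]
  have hKb := hN.Kb
  have hδ0 := hN.δ0
  have hδ1 := hN.δ1
  have hKh := hN.hδ
  have hhR : (h : ℝ) = b + m := by exact_mod_cast hN.hb
  have hD : 0 < 2 * K + 1 := by linarith
  have hlR : (l : ℝ) ≤ m := by exact_mod_cast hl
  obtain ⟨Y, hY⟩ : ∃ Y : ℤ, Y = ⌊δ + (K - M) * ((m : ℝ) - l)⌋ := ⟨_, rfl⟩
  obtain ⟨U, hU⟩ : ∃ U : ℤ, U = ⌊((K + 1) * ((m : ℝ) - l - 1) + δ) / (2 * K + 1)⌋ := ⟨_, rfl⟩
  have hY0 : 0 ≤ Y := by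
    rw [hY]
    apply Int.floor_nonneg.2
    have : 0 ≤ (K - M) * ((m : ℝ) - l) := mul_nonneg hKM.le (by linarith)
    linarith
  have hU0 : -1 ≤ U := by
    rw [hU, Int.le_floor, le_div_iff₀ hD]
    push_cast
    nlinarith
  have hsub : C ⊆ Icc (-U) Y := by
    intro x hx
    rw [mem_Icc]
    rcases lt_or_ge 0 x with h0 | h0
    · refine ⟨by omega, ?_⟩
      obtain ⟨p, hp, hpx, hpl⟩ := high (lo := 0) (hC x hx) (fun _ _ _ => Nat.zero_le _)
      obtain ⟨g1, g2, g3, g4⟩ := hB p hp
      have hxR : (x : ℝ) = p.1 - p.2 := by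
        rw [← hpx]; push_cast; ring
      have hx1 : (1 : ℝ) ≤ x := by exact_mod_cast h0
      rw [hY, Int.le_floor]
      have hplR : (l : ℝ) ≤ p.2 := by
        have : l ≤ p.2 := by omega
        exact_mod_cast this
      rcases lt_or_ge p.2 m with h5 | h5
      · have h6 := g4 h5
        have h7 : (x : ℝ) ≤ δ + (K - M) * ((m : ℝ) - p.2) := by
          rw [hxR]
          linarith
        have h8 : (K - M) * ((m : ℝ) - p.2) ≤ (K - M) * ((m : ℝ) - l) :=
          mul_le_mul_of_nonneg_left (by linarith) hKM.le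
        linarith
      · exfalso
        have h5R : (m : ℝ) ≤ p.2 := by exact_mod_cast h5
        have h6 : (K + 1) * (m : ℝ) ≤ (K + 1) * p.2 := mul_le_mul_of_nonneg_left h5R (by linarith)
        linarith
    · refine ⟨?_, by omega⟩
      obtain ⟨e, he⟩ : ∃ e : ℕ, x = -(e : ℤ) := ⟨x.natAbs, by omega⟩
      obtain ⟨p, hp, hpx, hpl⟩ := high (lo := 2 * e + 1) (hC x hx) (fun q hq hqx => by
        have h5 := (hB q hq).2.1
        omega)
      obtain ⟨g1, g2, g3, g4⟩ := hB p hp
      have hpR : (p.1 : ℝ) = p.2 - e := by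
        have h5 : p.1 + e = p.2 := by omega
        have h6 : (p.1 : ℝ) + e = p.2 := by exact_mod_cast h5
        linarith
      have hplR : (2 : ℝ) * e + 1 + l ≤ p.2 := by exact_mod_cast hpl
      have h7 : (e : ℤ) ≤ U := by
        rw [hU, Int.le_floor, le_div_iff₀ hD]
        push_cast
        have h8 : (K + 1) * ((2 : ℝ) * e + 1 + l) ≤ (K + 1) * p.2 :=
          mul_le_mul_of_nonneg_left hplR (by linarith)
        rw [hpR] at g3
        linarith
      omega
  have hcard := card_le_card hsub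
  rw [Int.card_Icc] at hcard
  have hsum : ((Y + U : ℤ) : ℝ) < ((m : ℤ) - (l : ℤ) : ℤ) := by
    have h1 := Int.floor_le (δ + (K - M) * ((m : ℝ) - l))
    have h2 := Int.floor_le (((K + 1) * ((m : ℝ) - l - 1) + δ) / (2 * K + 1))
    rw [← hY] at h1
    rw [← hU] at h2
    rw [le_div_iff₀ hD] at h2
    push_cast
    have h3 : ((Y : ℝ) + U) * (2 * K + 1) < ((m : ℝ) - l) * (2 * K + 1) := by
      have h4 := mul_le_mul_of_nonneg_right h1 hD.le
      have e1 : (K - M) * (2 * K + 1) = K := by linarith [hN.eq]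
      have e2 : (δ + (K - M) * ((m : ℝ) - l)) * (2 * K + 1) = δ * (2 * K + 1) + K * ((m : ℝ) - l) := by
        linear_combination ((m : ℝ) - l) * e1
      rw [e2] at h4
      have h5 : δ * (2 * K + 2) < K + 1 := by nlinarith
      linarith
    exact lt_of_mul_lt_mul_right h3 hD.le
  have hsum' : Y + U < (m : ℤ) - l := by exact_mod_cast hsum
  omega

theorem stepE (hN : Nm M h m b j K δ) {S : Finset (ℕ × ℕ)} {G : ℕ × ℕ → ℚ[X]}
    (hG : GG M h m K S G) (h00 : G (0, 0) = 0) : False := by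
  classical
  have hK0 := hN.K0
  obtain ⟨T, hT⟩ : ∃ T, ∀ p ∈ S, p.1 < T := by
    refine ⟨(S.image Prod.fst).sup id + 1, fun p hp => ?_⟩
    have := Finset.le_sup (f := id) (mem_image_of_mem Prod.fst hp)
    simp only [id] at this
    omega
  have hbk' : ∀ p ∈ S, G p ≠ 0 → 1 ≤ p.1 ∧ (K - M) * p.2 ≤ p.1 ∧ (p.1 : ℝ) ≤ K * p.2 ∧ p.2 ≤ h := by
    intro p hp hGp
    rcases hG.bk p hp hGp with h1 | h1
    · rw [h1] at hGp
      exact absurd h00 hGp
    · exact h1
  have hne0 : ∀ n p, (taylor 1 (G p)).coeff n ≠ 0 → G p ≠ 0 := by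
    intro n p hp hcon
    rw [hcon, map_zero, coeff_zero] at hp
    exact hp rfl
  -- the minimal degree
  have hex : ∃ τ, ∃ t n k : ℕ, n + k = τ ∧ ¬ Cv (k + 1) S (fun p => (taylor 1 (G p)).coeff n) t := by
    obtain ⟨p, hp, hGp⟩ := hG.ne
    have h1 : taylor 1 (G p) ≠ 0 := by
      intro hcon
      exact hGp ((taylor_eq_zero 1 _).1 hcon)
    refine ⟨_, p.1, (taylor 1 (G p)).natDegree, h, rfl, ?_⟩
    intro hcon
    have h2 := hcon.zero (lo := 0) ?_ p hp rfl
    · rw [coeff_natDegree] at h2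
      exact leadingCoeff_ne_zero.2 h1 h2
    · intro q hq _ haq
      have h3 := (hbk' q hq (hne0 _ q haq)).2.2.2
      exact ⟨Nat.zero_le _, by omega⟩
  obtain ⟨τ, hτ⟩ : ∃ τ, τ = Nat.find hex := ⟨_, rfl⟩
  have hspec := Nat.find_spec hex
  rw [← hτ] at hspec
  have hmin : ∀ t n k : ℕ, n + k < τ → Cv (k + 1) S (fun p => (taylor 1 (G p)).coeff n) t := by
    intro t n k hnk
    rw [hτ] at hnk
    by_contra hcon
    exact Nat.find_min hex hnk ⟨t, n, k, rfl, hcon⟩
  have hCv : ∀ k ≤ τ, ∀ t, Cv k S (fun p => (taylor 1 (G p)).coeff (τ - k)) t := by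
    intro k hk t
    rcases Nat.eq_zero_or_pos k with h1 | h1
    · intro Q hQ
      omega
    · have h2 := hmin t (τ - k) (k - 1) (by omega)
      rw [Nat.sub_add_cancel h1] at h2
      exact h2
  obtain ⟨H, hH⟩ : ∃ H : ℕ × ℕ → ℚ, H = fun q =>
    ∑ p ∈ S.filter (fun p => p.1 = q.1), (p.2.choose q.2 : ℚ) * (taylor 1 (G p)).coeff (τ - q.2) :=
    ⟨_, rfl⟩
  have hHmf : Mf m (range T ×ˢ range (τ + 1)) H := by
    apply Mf_of_desc
    intro c d hcd
    rw [sum_product_right]
    have h1 : ∀ k ∈ range (τ + 1), ∑ t ∈ range T, (t : ℚ) ^ c * (k.descFactorial d : ℚ) * H (t, k) =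
        ∑ p ∈ S, (p.1 : ℚ) ^ c * ((k.descFactorial d : ℚ) * (p.2.choose k : ℚ) *
          (taylor 1 (G p)).coeff (τ - k)) := by
      intro k _
      have h3 : ∀ p ∈ S, p.1 ∈ range T := fun p hp => mem_range.2 (hT p hp)
      rw [← sum_fiberwise_of_maps_to h3]
      refine sum_congr rfl fun t _ => ?_
      rw [hH]
      simp only
      rw [mul_sum]
      refine sum_congr rfl fun p hp => ?_
      rw [mem_filter] at hp
      obtain ⟨hp1, rfl⟩ := hp
      ring
    rw [sum_congr rfl h1, sum_comm]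
    rcases le_or_gt d τ with hd | hd
    · have h2 := taylor_cond hG.mf hcd (τ - d)
      refine Eq.trans (sum_congr rfl fun p _ => ?_) h2
      rw [← mul_sum, mul_assoc]
      congr 1
      have e1 : τ + 1 = d + (τ - d + 1) := by omega
      rw [e1, sum_range_add, mul_sum]
      have h4 : ∑ x ∈ range d, (x.descFactorial d : ℚ) * (p.2.choose x : ℚ) *
          (taylor 1 (G p)).coeff (τ - x) = 0 := by
        refine sum_eq_zero fun x hx => ?_
        rw [mem_range] at hx
        rw [Nat.descFactorial_eq_zero_iff_lt.2 hx]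
        simp
      rw [h4, zero_add]
      refine sum_congr rfl fun y _ => ?_
      have h5 := desc_choose p.2 d y
      have h6 : ((d + y).descFactorial d : ℚ) * (p.2.choose (d + y) : ℚ) =
          (p.2.descFactorial d : ℚ) * ((p.2 - d).choose y : ℚ) := by exact_mod_cast h5
      rw [h6, Nat.sub_sub]
      ring
    · refine sum_eq_zero fun p _ => sum_eq_zero fun k hk => ?_
      rw [mem_range] at hk
      rw [Nat.descFactorial_eq_zero_iff_lt.2 (show k < d by omega)]
      simp
  have hall : ∀ q ∈ range T ×ˢ range (τ + 1), H q = 0 := by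
    refine peel (B := (range T ×ˢ range (τ + 1)).filter (fun p => 1 ≤ p.1 ∧ p.2 < 2 * p.1 ∧
      (p.1 : ℝ) + K * p.2 ≤ K * h ∧
      (p.2 < m → (p.1 : ℝ) ≤ K * ((h : ℝ) - p.2) - (M + 1) * ((m : ℝ) - p.2)))) hHmf 1 ?_ ?_
    · rintro ⟨t, k⟩ hq hHq
      rw [mem_filter]
      refine ⟨hq, ?_⟩
      rw [mem_product, mem_range, mem_range] at hq
      simp only at hq
      have hkτ : k ≤ τ := by omega
      have hcv := hCv k hkτ t
      have hzero : ¬ ∀ p ∈ S, p.1 = t → (taylor 1 (G p)).coeff (τ - k) = 0 := by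
        intro hcon
        apply hHq
        rw [hH]
        refine sum_eq_zero fun p hp => ?_
        rw [mem_filter] at hp
        simp only
        rw [hcon p hp.1 hp.2, mul_zero]
      have g1 : 1 ≤ t := by
        by_contra hcon
        apply hzero
        intro p hp hpt
        by_contra h2
        have h3 := (hbk' p hp (hne0 _ p h2)).1
        omega
      refine ⟨g1, ?_, ?_, ?_⟩
      · by_contra hcon
        simp only at hcon
        apply hzero
        refine hcv.zero (lo := ⌈(t : ℝ) / K⌉₊) ?_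
        intro p hp hpt hap
        obtain ⟨k1, k2, k3, k4⟩ := hbk' p hp (hne0 _ p hap)
        obtain ⟨k5, k6⟩ := hN.col k1 k2 k3
        rw [hpt] at k5 k6
        exact ⟨k5, by omega⟩
      · by_contra hcon
        simp only at hcon
        push Not at hcon
        apply hzero
        refine hcv.zero (lo := h + 1 - k) ?_
        intro p hp hpt hap
        obtain ⟨k1, k2, k3, k4⟩ := hbk' p hp (hne0 _ p hap)
        have h3 : K * ((h : ℝ) - k) < K * p.2 := by
          have : ((p.1 : ℕ) : ℝ) = t := by exact_mod_cast hpt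
          linarith
        have h4 : (h : ℝ) - k < p.2 := lt_of_mul_lt_mul_left h3 hK0.le
        have h5 : h < p.2 + k := by
          have : (h : ℝ) < p.2 + k := by linarith
          exact_mod_cast this
        omega
      · intro hkm
        by_contra hcon
        simp only at hcon hkm
        push Not at hcon
        apply hHq
        rw [hH]
        exact (hG.cvl hkm hcon ((Polynomial.lcoeff ℚ (τ - k)).comp (taylor 1))).choose
    · intro l hl C hC
      refine countE hN ?_ l hl C hC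
      intro p hp
      exact (mem_filter.1 hp).2
  obtain ⟨t, n, k, hnk, hcv⟩ := hspec
  apply hcv
  have hn : n = τ - k := by omega
  subst hn
  refine (hCv k (by omega) t).succ_of ?_
  rcases lt_or_ge t T with ht | ht
  · have h1 := hall (t, k) (mem_product.2 ⟨mem_range.2 ht, mem_range.2 (by simp only; omega)⟩)
    rw [hH] at h1
    exact h1
  · refine sum_eq_zero fun p hp => ?_
    rw [mem_filter] at hp
    have := hT p hp.1
    omega

end Pool.Agent.Q195.WN
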