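import Pool.Agent.Q195.WN.Red3
import Pool.Agent.Q195.WN.Red5
import Pool.Agent.TH469.SX.Fifteen

/-! The block with its apex: no curve through `M + 2` points of multiplicity `m`. -/

namespace Pool.Agent.Q195.WN

open Finset Polynomial Pool.Agent.TH176.Nag
open Pool.Agent.TH864.SX (Blk)

variable {M h m b j : ℕ} {K δ : ℝ}

theorem noGG (hN : Nm M h m b j K δ) {S : Finset (ℕ × ℕ)} {G : ℕ × ℕ → ℚ[X]}
    (hG : GG M h m K S G) (hS : ∀ i ≤ m - b, ∀ j' ≤ b, (i + j', i + 2 * j') ∈ S) : False := by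
  by_cases h00 : G (0, 0) = 0
  · exact stepE hN hG h00
  · refine stepD hN hG hS ⟨(0, 0), ?_, h00, ?_⟩
    · simpa using hS 0 (Nat.zero_le _) 0 (Nat.zero_le _)
    · exact om_ne.2 (Or.inl (Nat.zero_le _))

theorem smul_CC (q : ℚ) (g : ℚ[X][X]) : q • g = C (C q) * g := by
  ext1 n
  rw [coeff_smul, coeff_C_mul, smul_eq_C_mul]

theorem PF_map {A : Type} [CommRing A] [Algebra ℚ A] {L : Type} [Field L] (ψ : A →+* L) {w : ℕ}
    {R : ℚ × ℚ → ℚ} (hR : R ∈ PF ℚ w) : ∃ P ∈ PF L w, ∀ n k : ℕ,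
      P ((n : L), (k : L)) = ψ (algebraMap ℚ A (R ((n : ℚ), (k : ℚ)))) := by
  induction hR using Submodule.span_induction with
  | mem x h =>
    obtain ⟨a, b, hab, rfl⟩ := h
    exact ⟨_, mem_PF_mono hab, fun n k => by simp⟩
  | zero => exact ⟨0, (PF L w).zero_mem, fun n k => by simp⟩
  | add x y _ _ hx hy =>
    obtain ⟨P, hP, h1⟩ := hx
    obtain ⟨Q, hQ, h2⟩ := hy
    exact ⟨P + Q, (PF L w).add_mem hP hQ, fun n k => by simp [h1, h2]⟩
  | smul c x _ hx =>
    obtain ⟨P, hP, h1⟩ := hx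
    exact ⟨ψ (algebraMap ℚ A c) • P, (PF L w).smul_mem _ hP, fun n k => by simp [h1]⟩

/-- the block in the coordinates `(t, u)` -/
def Bl (M h : ℕ) (K : ℝ) : Set (ℤ × ℤ) := {q | ∃ p : ℕ × ℕ, Bk M h K p ∧ q = ((p.1 : ℤ), (p.2 : ℤ))}

theorem Emp_Bl (hN : Nm M h m b j K δ) : Emp (fun _ : Fin (M + 2) => m) (Bl M h K) := by
  classical
  have hK0 := hN.K0
  let L := FractionRing ℚ[X][X]
  have hinj : Function.Injective (algebraMap ℚ[X][X] L) := IsFractionRing.injective _ _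
  have hchar : CharZero L := charZero_of_injective_algebraMap hinj
  let ψ : ℚ[X][X] →+* L := algebraMap ℚ[X][X] L
  have hψ : ∀ {z : ℚ[X][X]}, ψ z = 0 → z = 0 := fun {z} hz => hinj (by rw [map_zero]; exact hz)
  let xs : Fin (M + 2) → ℚ[X][X] := fun i => if (i : ℕ) < M + 1 then C (C (((i : ℕ) : ℚ) + 1)) else X
  let ys : Fin (M + 2) → ℚ[X][X] := fun i => if (i : ℕ) < M + 1 then 1 else C X
  have hxs : ∀ i, xs i ≠ 0 := by
    intro i
    simp only [xs]
    split_ifs with h1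
    · rw [Ne, C_eq_zero, C_eq_zero]
      positivity
    · exact X_ne_zero
  have hys : ∀ i, ys i ≠ 0 := by
    intro i
    simp only [ys]
    split_ifs with h1
    · exact one_ne_zero
    · rw [Ne, C_eq_zero]
      exact X_ne_zero
  refine ⟨L, inferInstance, hchar, fun i => ψ (xs i), fun i => ψ (ys i),
    fun i hi => hxs i (hψ hi), fun i hi => hys i (hψ hi), ?_⟩
  intro f hf hLM
  by_contra hne
  obtain ⟨N, hN'⟩ : ∃ N, N = (M + 1) * h + 1 := ⟨_, rfl⟩
  obtain ⟨S, hS⟩ : ∃ S, S = range N ×ˢ range N := ⟨_, rfl⟩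
  obtain ⟨ι, hι⟩ : ∃ ι : ℕ × ℕ → ℤ × ℤ, ι = fun p => ((p.1 : ℤ), (p.2 : ℤ)) := ⟨_, rfl⟩
  have hιinj : Function.Injective ι := by
    intro p q hpq
    rw [hι] at hpq
    simp only [Prod.mk.injEq, Nat.cast_inj] at hpq
    exact Prod.ext hpq.1 hpq.2
  have hbS : ∀ p, Bk M h K p → p ∈ S := by
    intro p hp
    rw [hS, mem_product, mem_range, mem_range, hN']
    rcases hp with hp | ⟨h1, h2, h3, h4⟩
    · rw [hp]
      simp
    · have h5 : (p.1 : ℝ) ≤ (M + 1) * h := by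
        have h6 : (p.2 : ℝ) ≤ h := by exact_mod_cast h4
        have h7 : K * (p.2 : ℝ) ≤ K * h := mul_le_mul_of_nonneg_left h6 hK0.le
        have h8 : K * (h : ℝ) ≤ (M + 1) * h :=
          mul_le_mul_of_nonneg_right hN.hKM.le (Nat.cast_nonneg h)
        linarith
      have h6 : p.1 ≤ (M + 1) * h := by exact_mod_cast h5
      have h7 : h ≤ (M + 1) * h := Nat.le_mul_of_pos_left h (Nat.succ_pos M)
      constructor
      · omega
      · omega
  have hsub : f.support ⊆ S.image ι := by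
    intro q hq
    obtain ⟨p, hp, hqp⟩ := hf (mem_coe.2 hq)
    rw [mem_image]
    exact ⟨p, hbS p hp, by rw [hι, hqp]⟩
  have hsum : ∀ x y : L, ∀ P : L × L → L,
      pr f x y P = ∑ p ∈ S, f (ι p) * P ((p.1 : L), (p.2 : L)) * (x ^ p.1 * y ^ p.2) := by
    intro x y P
    unfold pr Finsupp.sum
    rw [sum_subset hsub, sum_image (fun a _ b _ hab => hιinj hab)]
    · refine sum_congr rfl fun p _ => ?_
      rw [hι]
      simp
    · intro q _ hq
      rw [Finsupp.notMem_support_iff.1 hq]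
      ring
  obtain ⟨c, hc⟩ := IsLocalization.exist_integer_multiples (nonZeroDivisors ℚ[X][X]) S
    (fun p => f (ι p))
  have hc0 : (c : ℚ[X][X]) ≠ 0 := nonZeroDivisors.ne_zero c.2
  choose! g hg using hc
  have hg' : ∀ p ∈ S, ψ (g p) = ψ c * f (ι p) := by
    intro p hp
    have := hg p hp
    rw [Algebra.smul_def] at this
    exact this
  have hψc : ψ c ≠ 0 := fun hcon => hc0 (hψ hcon)
  have hcond : ∀ i : Fin (M + 2), ∀ R ∈ PF ℚ m,
      ∑ p ∈ S, R ((p.1 : ℚ), (p.2 : ℚ)) • (g p * xs i ^ p.1 * ys i ^ p.2) = 0 := by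
    intro i R hR
    obtain ⟨P, hP, hPR⟩ := PF_map ψ hR
    have h1 := hLM i P hP
    rw [hsum] at h1
    apply hψ
    rw [map_sum]
    have h2 : ψ c * ∑ p ∈ S, f (ι p) * P ((p.1 : L), (p.2 : L)) *
        (ψ (xs i) ^ p.1 * ψ (ys i) ^ p.2) = 0 := by
      rw [h1, mul_zero]
    rw [mul_sum] at h2
    refine Eq.trans (sum_congr rfl fun p hp => ?_) h2
    rw [Algebra.smul_def, map_mul, map_mul, map_mul, map_pow, map_pow, hg' p hp, hPR]
    ring
  suffices key : ∃ G, GG M h m K S G by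
    obtain ⟨G, hG⟩ := key
    refine noGG hN hG ?_
    intro i hi j' hj'
    rw [hS, mem_product, mem_range, mem_range, hN']
    have h1 := hN.hb
    have h2 := hN.bm
    have h7 : h ≤ (M + 1) * h := Nat.le_mul_of_pos_left h (Nat.succ_pos M)
    constructor
    · simp only; omega
    · simp only; omega
  refine step1 (M := M) (h := h) (m := m) (K := K) hK0 hN.hKM (S := S) (g := g) ?_ ?_ ?_ ?_
  · obtain ⟨q, hq⟩ := Finsupp.ne_iff.1 hne
    rw [Finsupp.zero_apply] at hq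
    obtain ⟨p, hp, hpq⟩ := mem_image.1 (hsub (Finsupp.mem_support_iff.2 hq))
    refine ⟨p, hp, fun hcon => ?_⟩
    have h1 := hg' p hp
    rw [hcon, map_zero, hpq] at h1
    exact (mul_ne_zero hψc hq) h1.symm
  · intro p hp hgp
    have h1 : f (ι p) ≠ 0 := by
      intro hcon
      have h2 := hg' p hp
      rw [hcon, mul_zero] at h2
      exact hgp (hψ h2)
    obtain ⟨p', hp', hpp⟩ := hf (mem_coe.2 (Finsupp.mem_support_iff.2 h1))
    have h2 : p = p' := hιinj (by rw [hpp, hι])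
    rw [h2]
    exact hp'
  · intro i hi R hR
    have h1 := hcond ⟨i, by omega⟩ R hR
    refine Eq.trans (sum_congr rfl fun p _ => ?_) h1
    simp only [xs, ys]
    rw [if_pos hi, if_pos hi, smul_CC, smul_CC, one_pow, mul_one, C_mul, C_mul, C_pow, C_pow]
    ring
  · intro R hR
    have h1 := hcond ⟨M + 1, by omega⟩ R hR
    refine Eq.trans (sum_congr rfl fun p _ => ?_) h1
    simp only [xs, ys]
    rw [if_neg (by omega), if_neg (by omega)]

theorem Emp_Blk (hN : Nm M h m b j K δ) : Emp (fun _ : Fin (M + 2) => m) (Blk M K (3 * h)) := by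
  refine (Emp_Bl hN).comap 1 0 0 (-1) 0 h (by norm_num) ?_
  rintro ⟨t, s⟩ ⟨h1, h2, h3⟩
  simp only at h1 h2 h3
  have hK0 := hN.K0
  have hKM : 0 < K - M := by linarith [hN.hMK]
  have e : (((3 * h : ℕ) : ℝ) / 3 - s) = (h : ℝ) - s := by push_cast; ring
  rw [e] at h2 h3
  have hM0 : (0 : ℝ) < M := by exact_mod_cast hN.hM
  have hu0 : (0 : ℝ) ≤ (h : ℝ) - s := by
    by_contra hcon
    push Not at hcon
    nlinarith
  have hu0' : s ≤ h := by
    have : (s : ℝ) ≤ h := by linarith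
    exact_mod_cast this
  have ht0 : 0 ≤ t := by
    have : (0 : ℝ) ≤ t := le_trans (mul_nonneg hKM.le hu0) h2
    exact_mod_cast this
  obtain ⟨u, hu⟩ : ∃ u : ℕ, (u : ℤ) = h - s := ⟨((h : ℤ) - s).toNat, by omega⟩
  obtain ⟨t', ht'⟩ : ∃ t' : ℕ, (t' : ℤ) = t := ⟨t.toNat, by omega⟩
  have huR : (u : ℝ) = (h : ℝ) - s := by exact_mod_cast hu
  have htR : (t' : ℝ) = t := by exact_mod_cast ht'
  refine ⟨(t', u), ?_, ?_⟩
  · rw [← huR, ← htR] at h2 h3
    rcases Nat.eq_zero_or_pos t' with h4 | h4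
    · left
      have h5 : (u : ℝ) ≤ 0 := by
        rw [h4, Nat.cast_zero] at h2
        by_contra hcon
        push Not at hcon
        have := mul_pos hKM hcon
        linarith
      have h6 : u ≤ 0 := by exact_mod_cast h5
      exact Prod.ext h4 (by simp only; omega)
    · right
      exact ⟨h4, h2, h3, by simp only; omega⟩
  · ext
    · simp only; rw [ht']; ring
    · simp only; rw [hu]; ring

end Pool.Agent.Q195.WN
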