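import Pool.Agent.Q195.WN.Fin15

/-! 11 points. -/

namespace Pool.Agent.Q195.WN

open Finset Pool.Agent.TH176.Nag Pool.Agent.TH603.Sur Pool.Agent.TH603.Cut Pool.Agent.TH641.NW
  Pool.Agent.H932R3
open Pool.Agent.TH864.SX (Fb Fa Slp Blk blk_reg K11 irr11 num11 K11_lt sq11 dich')

theorem b11 : (3.3166 : ℝ) < √11 ∧ √11 < (3.3167 : ℝ) := by
  constructor
  · rw [Real.lt_sqrt (by norm_num)]; norm_num
  · rw [Real.sqrt_lt' (by norm_num)]; norm_num

theorem no_int {m a : ℕ} {x y : ℝ} (h1 : x < m) (h2 : (m : ℝ) ≤ y) (hx : (a : ℝ) ≤ x)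
    (hy : y < a + 1) : False := by
  have h3 : (a : ℝ) < m := by linarith
  have h4 : (m : ℝ) < ((a + 1 : ℕ) : ℝ) := by push_cast; linarith
  have h5 : a < m := by exact_mod_cast h3
  have h6 : m < a + 1 := by exact_mod_cast h4
  omega

theorem nm11 {m h : ℕ} (hm : 1 ≤ m) (h28 : ¬ (m = 28 ∧ h = 31)) (h47 : ¬ (m = 47 ∧ h = 52))
    (h0 : 0 ≤ K11 * h - (K11 + 1) * m) (h1 : K11 * h - (K11 + 1) * m < 9 * (10 - 3 * √11)) :
    ∃ j, Nm 9 h m (h - m) j K11 (K11 * h - (K11 + 1) * m) := by
  obtain ⟨hb1, hb2⟩ := b11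
  have hK : K11 = 3 * (3 + √11) / 2 := rfl
  have hs := num11.sl
  have hK0 := hs.K0
  have hmR : (1 : ℝ) ≤ m := by exact_mod_cast hm
  have hhm : m ≤ h := by
    have h2 : (m : ℝ) ≤ h := by
      by_contra hcon
      push Not at hcon
      have := mul_lt_mul_of_pos_left hcon hK0
      linarith
    exact_mod_cast h2
  obtain ⟨b, hbb⟩ : ∃ b, b = h - m := ⟨_, rfl⟩
  have hhb : h = b + m := by omega
  have hhR : (h : ℝ) = b + m := by exact_mod_cast hhb
  rw [← hbb]
  obtain ⟨δ, hδ⟩ : ∃ δ, δ = K11 * h - (K11 + 1) * m := ⟨_, rfl⟩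
  rw [← hδ] at h0 h1 ⊢
  have hKb : K11 * b = m + δ := by
    rw [hδ, hhR]; ring
  have main : ∀ j : ℕ, 1 ≤ j → j ≤ b → j ≤ 9 → δ < (10 - 3 * √11) * j →
      Nm 9 h m b j K11 δ := by
    intro j hj1 hjb hj9 hδj
    have hjR : (j : ℝ) ≤ b := by exact_mod_cast hjb
    have hj9R : (j : ℝ) ≤ 9 := by exact_mod_cast hj9
    have hj1R : (1 : ℝ) ≤ j := by exact_mod_cast hj1
    have hjm : 2 * j < m := by
      have h2 : K11 * j ≤ K11 * b := mul_le_mul_of_nonneg_left hjR hK0.le
      have h3 : (2 : ℝ) * j < m := by nlinarith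
      exact_mod_cast h3
    exact
      { hM := by norm_num
        hMK := hs.hMK
        hKM := by push_cast; linarith
        eq := by have := hs.eq; push_cast at this ⊢; exact this
        irr := irr11
        hδ := by rw [hδ]; ring
        δ0 := h0
        δ1 := by linarith
        hb := hhb
        j1 := hj1
        jb := hjb
        jm := hjm
        hj := by
          have e : (2 * (((9 : ℕ) : ℝ) + 1 - K11) - 1) = 10 - 3 * √11 := by
            rw [hK]; push_cast; ring
          rw [e]; exact hδj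
        hjK := by linarith }
  rcases le_or_gt 9 b with h9 | h9
  · exact ⟨9, main 9 (by norm_num) h9 le_rfl (by push_cast; linarith)⟩
  · rcases (show b = 0 ∨ b = 1 ∨ b = 2 ∨ b = 3 ∨ b = 4 ∨ b = 5 ∨ b = 6 ∨ b = 7 ∨ b = 8 by omega)
      with hb | hb | hb | hb | hb | hb | hb | hb | hb
    · exfalso
      rw [hb, Nat.cast_zero, mul_zero] at hKb
      linarith
    · exfalso
      rw [hb] at hKb
      push_cast at hKb
      exact no_int (m := m) (a := 9) (x := 9) (y := 9.5) (by linarith) (by linarith) (by norm_num) (by norm_num)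
    · exfalso
      rw [hb] at hKb
      push_cast at hKb
      exact no_int (m := m) (a := 18) (x := 18.4) (y := 18.96) (by linarith) (by linarith) (by norm_num)
        (by norm_num)
    · exfalso
      have h2 := hKb
      rw [hb] at h2
      push_cast at h2
      have h3 : (27 : ℝ) < m := by linarith
      have h4 : (m : ℝ) < 29 := by linarith
      have h5 : 27 < m := by exact_mod_cast h3
      have h6 : m < 29 := by exact_mod_cast h4
      exact h28 ⟨by omega, by omega⟩
    · exfalso
      rw [hb] at hKb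
      push_cast at hKb
      exact no_int (m := m) (a := 37) (x := 37.4) (y := 37.95) (by linarith) (by linarith) (by norm_num)
        (by norm_num)
    · exfalso
      have h2 := hKb
      rw [hb] at h2
      push_cast at h2
      have h3 : (46 : ℝ) < m := by linarith
      have h4 : (m : ℝ) < 48 := by linarith
      have h5 : 46 < m := by exact_mod_cast h3
      have h6 : m < 48 := by exact_mod_cast h4
      exact h47 ⟨by omega, by omega⟩
    · exfalso
      rw [hb] at hKb
      push_cast at hKb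
      exact no_int (m := m) (a := 56) (x := 56.3) (y := 56.9) (by linarith) (by linarith) (by norm_num)
        (by norm_num)
    · refine ⟨7, main 7 (by norm_num) (by omega) (by norm_num) ?_⟩
      have h2 := hKb
      rw [hb] at h2
      push_cast at h2 ⊢
      have h3 : (65 : ℝ) < m := by linarith
      have h4 : (m : ℝ) < 67 := by linarith
      have h5 : 65 < m := by exact_mod_cast h3
      have h6 : m < 67 := by exact_mod_cast h4
      have h7 : m = 66 := by omega
      rw [h7] at h2
      push_cast at h2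
      linarith
    · exfalso
      rw [hb] at hKb
      push_cast at hKb
      exact no_int (m := m) (a := 75) (x := 75.3) (y := 75.9) (by linarith) (by linarith) (by norm_num)
        (by norm_num)

/-- the degrees settled for 11 points -/
def Good11 (m d : ℕ) : Prop :=
  ¬ 3 ∣ d ∨ (d : ℝ) < √11 * m + (171 * √11 - 567) ∨ √11 * (2 * m + 1) ≤ 2 * d + 3 ∨
    (2 * d + 3) ^ 2 + 2 = 11 * (2 * m + 1) ^ 2

theorem pell11 (m u : ℕ) (h : (2 * (3 * u) + 3) ^ 2 + 2 = 11 * (2 * m + 1) ^ 2) :
    Sur (fun _ : Fin 11 => m) (Pool.Agent.TH469.SX.Bo 9 K11 (3 * u)) := by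
  have hss := sq11
  have hs0 : 0 < √(11 : ℝ) := by have := b11; linarith
  have hlt : (2 * (3 * (u : ℝ)) + 3) < √11 * (2 * m + 1) := by
    refine lt_of_pow_lt_pow_left₀ 2 (by positivity) ?_
    have h1 : (2 * (3 * (u : ℝ)) + 3) ^ 2 + 2 = 11 * (2 * (m : ℝ) + 1) ^ 2 := by exact_mod_cast h
    have h2 : (√11 * (2 * (m : ℝ) + 1)) ^ 2 = 11 * (2 * (m : ℝ) + 1) ^ 2 := by
      rw [mul_pow, pow_two (√11), hss]
    rw [h2]
    linarith
  refine Sur_bo_card num11.sl ?_ ?_
  · refine Pool.Agent.TH864.SX.Emp_Fb num11 ?_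
    have hrr := num11.rr_sqrt
    push_cast at hrr
    rw [← hrr]
    have h2 := mul_lt_mul_of_pos_left hlt hs0
    have h7 : √11 * (√11 * (2 * (m : ℝ) + 1)) = 11 * (2 * m + 1) := by rw [← mul_assoc, hss]
    rw [h7] at h2
    push_cast
    linarith
  · have h5 : 2 * (m + 1).choose 2 = m * (m + 1) := by
      rw [Nat.choose_two_right, Nat.add_sub_cancel, mul_comm (m + 1) m,
        Nat.mul_div_cancel' (Nat.even_mul_succ_self m).two_dvd]
    have h6 : 2 * (u + 1).choose 2 = u * (u + 1) := by
      rw [Nat.choose_two_right, Nat.add_sub_cancel, mul_comm (u + 1) u,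
        Nat.mul_div_cancel' (Nat.even_mul_succ_self u).two_dvd]
    have h7 : 11 * (m * (m + 1)) = 9 * (u * (u + 1)) := by nlinarith
    omega

theorem dich11 (m d : ℕ) (h28 : ¬ (m = 28 ∧ d = 93)) (h47 : ¬ (m = 47 ∧ d = 156))
    (hG : Good11 m d) :
    Emp (fun _ : Fin 11 => m) (TZ d) ∨ Sur (fun _ : Fin 11 => m) (TZ d) := by
  have hold : (¬ 3 ∣ d ∨ (d : ℝ) < √11 * m ∨ √11 * (2 * m + 1) ≤ 2 * d + 3) →
      Emp (fun _ : Fin 11 => m) (TZ d) ∨ Sur (fun _ : Fin 11 => m) (TZ d) :=
    fun h => dich' num11 K11_lt m d (by push_cast; exact h)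
  rcases hG with h1 | h1 | h1 | h1
  · exact hold (Or.inl h1)
  · by_cases hd : 3 ∣ d
    · rcases lt_or_ge (d : ℝ) (√11 * m) with h2 | h2
      · exact hold (Or.inr (Or.inl h2))
      · rcases Nat.eq_zero_or_pos m with hm | hm
        · right
          rw [hm]
          exact Sur_zero _
        · left
          obtain ⟨h, rfl⟩ := hd
          have hK : K11 = 3 * (3 + √11) / 2 := rfl
          have hK0 := num11.sl.K0
          have hss := sq11
          have hK1 : K11 * √11 = 3 * (K11 + 1) := by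
            rw [hK]; linarith
          push_cast at h1 h2
          obtain ⟨j, hN⟩ := nm11 (m := m) (h := h) hm (by omega) (by omega) (by
            have h3 := mul_le_mul_of_nonneg_left h2 hK0.le
            rw [← mul_assoc, hK1] at h3
            linarith) (by
            have h3 := mul_lt_mul_of_pos_left h1 hK0
            have h6 : K11 * (√11 * m) = 3 * (K11 + 1) * m := by rw [← mul_assoc, hK1]
            rw [mul_add, h6] at h3
            have h4 : K11 * (171 * √11 - 567) = 27 * (10 - 3 * √11) := by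
              rw [hK]; linarith
            rw [h4] at h3
            linarith)
          exact Emp_TZ9' num11.sl K11_lt (Emp_Blk hN)
    · exact hold (Or.inl hd)
  · exact hold (Or.inr (Or.inr h1))
  · by_cases hd : 3 ∣ d
    · right
      obtain ⟨u, rfl⟩ := hd
      refine Sur_TZ9' num11.sl K11_lt ((pell11 m u h1).mono ?_)
      rintro p ⟨g1, g2, g3⟩
      exact ⟨g1, g2.le, g3.le⟩
    · exact hold (Or.inl hd)

end Pool.Agent.Q195.WN
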