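import Pool.Agent.Q195.WN.Pell

/-! 15 points. -/

namespace Pool.Agent.Q195.WN

open Finset Pool.Agent.TH176.Nag Pool.Agent.TH603.Sur Pool.Agent.TH603.Cut Pool.Agent.TH641.NW
  Pool.Agent.H932R3 Pool.Agent.TH469.SX
open Pool.Agent.TH864.SX (Fb Fa Slp Blk blk_reg)

theorem b15 : (3.872 : ℝ) < √15 ∧ √15 < (3.873 : ℝ) := by
  constructor
  · rw [Real.lt_sqrt (by norm_num)]; norm_num
  · rw [Real.sqrt_lt' (by norm_num)]; norm_num

theorem nm15 {m h : ℕ} (hm : 1 ≤ m) (h0 : 0 ≤ K15 * h - (K15 + 1) * m)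
    (h1 : K15 * h - (K15 + 1) * m < 3 * (4 - √15)) :
    Nm 3 h m (h - m) 3 K15 (K15 * h - (K15 + 1) * m) := by
  have hb := b15
  have hK : K15 = (3 + √15) / 2 := rfl
  have hs := slp15
  have hK0 := hs.K0
  have hmR : (1 : ℝ) ≤ m := by exact_mod_cast hm
  have hhm : m ≤ h := by
    have h2 : (m : ℝ) ≤ h := by
      by_contra hcon
      push Not at hcon
      have := mul_lt_mul_of_pos_left hcon hK0
      linarith
    exact_mod_cast h2
  obtain ⟨b, hbb⟩ : ∃ b, b = h - m := ⟨_, rfl⟩
  have hhb : h = b + m := by omega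
  have hhR : (h : ℝ) = b + m := by exact_mod_cast hhb
  rw [← hbb]
  obtain ⟨δ, hδ⟩ : ∃ δ, δ = K15 * h - (K15 + 1) * m := ⟨_, rfl⟩
  rw [← hδ] at h0 h1 ⊢
  have hKb : K15 * b = m + δ := by
    rw [hδ, hhR]; ring
  have hb3 : 3 ≤ b := by
    by_contra hcon
    have hb2 : b = 0 ∨ b = 1 ∨ b = 2 := by omega
    rcases hb2 with hb2 | hb2 | hb2
    · rw [hb2, Nat.cast_zero, mul_zero] at hKb
      linarith
    · rw [hb2, Nat.cast_one, mul_one] at hKb
      have h2 : (m : ℝ) < 4 := by linarith
      have h3 : (3 : ℝ) < m := by linarith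
      have h4 : m < 4 := by exact_mod_cast h2
      have h5 : 3 < m := by exact_mod_cast h3
      omega
    · rw [hb2] at hKb
      push_cast at hKb
      have h2 : (m : ℝ) < 7 := by linarith
      have h3 : (6 : ℝ) < m := by linarith
      have h4 : m < 7 := by exact_mod_cast h2
      have h5 : 6 < m := by exact_mod_cast h3
      omega
  have hb3R : (3 : ℝ) ≤ b := by exact_mod_cast hb3
  have hm6 : 2 * 3 < m := by
    have h2 : K15 * 3 ≤ K15 * b := mul_le_mul_of_nonneg_left hb3R hK0.le
    have h3 : (6 : ℝ) < m := by linarith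
    exact_mod_cast h3
  exact
    { hM := by norm_num
      hMK := hs.hMK
      hKM := by push_cast; linarith
      eq := by have := hs.eq; push_cast at this ⊢; exact this
      irr := irr15
      hδ := by rw [hδ]; ring
      δ0 := h0
      δ1 := by linarith
      hb := hhb
      j1 := by norm_num
      jb := hb3
      jm := hm6
      hj := by push_cast; linarith
      hjK := by push_cast; linarith }

/-- no conditions at all -/
theorem Sur_zero {ι : Type} [Fintype ι] (S : Set (ℤ × ℤ)) : Sur (fun _ : ι => 0) S := by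
  refine ⟨∅, by simp, by simp [Pool.Agent.TH603.Sur.cond], ?_⟩
  refine ⟨ℚ, inferInstance, inferInstance, fun _ => 1, fun _ => 1, fun _ => one_ne_zero,
    fun _ => one_ne_zero, ?_⟩
  intro f hf _
  have : f.support = ∅ := by
    rw [← coe_eq_empty]
    exact Set.subset_eq_empty hf (by simp)
  exact Finsupp.support_eq_empty.1 this

/-- the degrees settled for 15 points -/
def Good15 (m d : ℕ) : Prop :=
  ¬ 3 ∣ d ∨ (d : ℝ) < √15 * m + (21 * √15 - 81) ∨ √15 * (2 * m + 1) ≤ 2 * d + 3 ∨
    (2 * d + 3) ^ 2 + 6 = 15 * (2 * m + 1) ^ 2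

theorem pell15 (m u : ℕ) (h : (2 * (3 * u) + 3) ^ 2 + 6 = 15 * (2 * m + 1) ^ 2) :
    Sur (fun _ : Fin 5 => m) (Bo 3 K15 (3 * u)) := by
  have hK0 := slp15.K0
  have hss := sq15
  have hK1 : K15 * √15 = 3 * (K15 + 1) := by
    unfold K15
    linarith
  have hs0 : 0 < √(15 : ℝ) := by have := three_lt; linarith
  have hlt : (2 * (3 * (u : ℝ)) + 3) < √15 * (2 * m + 1) := by
    refine lt_of_pow_lt_pow_left₀ 2 (by positivity) ?_
    have h1 : (2 * (3 * (u : ℝ)) + 3) ^ 2 + 6 = 15 * (2 * (m : ℝ) + 1) ^ 2 := by exact_mod_cast h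
    have h2 : (√15 * (2 * (m : ℝ) + 1)) ^ 2 = 15 * (2 * (m : ℝ) + 1) ^ 2 := by
      rw [mul_pow, pow_two (√15), hss]
    rw [h2]
    linarith
  refine Sur_bo_card slp15 ?_ ?_
  · rw [Fb_eq]
    refine Emp_blk (p := 1) (q := 2) (M := 3) rfl hK0 slp15.eq (by simp) ?_
    have h3 := mul_lt_mul_of_pos_left hlt hK0
    have h4 : K15 * (√15 * (2 * (m : ℝ) + 1)) = 3 * (K15 + 1) * (2 * m + 1) := by
      rw [← mul_assoc, hK1]
    rw [h4] at h3
    push_cast
    linarith
  · have h5 : 2 * (m + 1).choose 2 = m * (m + 1) := by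
      rw [Nat.choose_two_right, Nat.add_sub_cancel, mul_comm (m + 1) m,
        Nat.mul_div_cancel' (Nat.even_mul_succ_self m).two_dvd]
    have h6 : 2 * (u + 1).choose 2 = u * (u + 1) := by
      rw [Nat.choose_two_right, Nat.add_sub_cancel, mul_comm (u + 1) u,
        Nat.mul_div_cancel' (Nat.even_mul_succ_self u).two_dvd]
    have h7 : 5 * (m * (m + 1)) = 3 * (u * (u + 1)) := by nlinarith
    omega

theorem dich15 (m d : ℕ) (hG : Good15 m d) :
    Emp (fun _ : Fin 15 => m) (TZ d) ∨ Sur (fun _ : Fin 15 => m) (TZ d) := by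
  have hold : (¬ 3 ∣ d ∨ (d : ℝ) < √15 * m ∨ √15 * (2 * m + 1) ≤ 2 * d + 3) →
      Emp (fun _ : Fin 15 => m) (TZ d) ∨ Sur (fun _ : Fin 15 => m) (TZ d) :=
    fun h => dich_three (b := 5) slp15 K15_lt (dich5 m d h)
  have e : (Fin 5 ⊕ Fin 5) ⊕ Fin 5 ≃ Fin 15 := by
    apply Fintype.equivOfCardEq
    simp
  have hw : ∀ i, (Sum.elim (Sum.elim (fun _ : Fin 5 => m) fun _ : Fin 5 => m)
      fun _ : Fin 5 => m) i = m := by
    rintro ((i | i) | i) <;> rfl
  rcases hG with h1 | h1 | h1 | h1
  · exact hold (Or.inl h1)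
  · by_cases hd : 3 ∣ d
    · rcases lt_or_ge (d : ℝ) (√15 * m) with h2 | h2
      · exact hold (Or.inr (Or.inl h2))
      · rcases Nat.eq_zero_or_pos m with hm | hm
        · right
          rw [hm]
          exact Sur_zero _
        · left
          obtain ⟨h, rfl⟩ := hd
          have hK : K15 = (3 + √15) / 2 := rfl
          have hK0 := slp15.K0
          have hss := sq15
          have hK1 : K15 * √15 = 3 * (K15 + 1) := by
            rw [hK]; linarith
          push_cast at h1 h2
          have hN := nm15 (m := m) (h := h) hm (by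
            have h3 := mul_le_mul_of_nonneg_left h2 hK0.le
            rw [← mul_assoc, hK1] at h3
            linarith) (by
            have h3 := mul_lt_mul_of_pos_left h1 hK0
            have h6 : K15 * (√15 * m) = 3 * (K15 + 1) * m := by rw [← mul_assoc, hK1]
            rw [mul_add, h6] at h3
            have h4 : K15 * (21 * √15 - 81) = 9 * (4 - √15) := by
              rw [hK]; linarith
            rw [h4] at h3
            linarith)
          have h5 := Emp_TZ3' slp15 K15_lt (Emp_Blk hN)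
          refine Emp_emb (g := e) e.injective (fun i => ?_) h5
          rw [hw]
    · exact hold (Or.inl hd)
  · exact hold (Or.inr (Or.inr h1))
  · by_cases hd : 3 ∣ d
    · right
      obtain ⟨u, rfl⟩ := hd
      obtain ⟨T, h2, h3, h4⟩ := Sur_TZ3' slp15 K15_lt (pell15 m u h1)
      refine ⟨T, h2, ?_, Emp_emb (g := e) e.injective (fun i => ?_) h4⟩
      · rw [h3]
        unfold Pool.Agent.TH603.Sur.cond
        simp only [hw]
        rw [Finset.sum_const, Finset.sum_const, Finset.card_univ, Finset.card_univ,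
          Fintype.card_congr e]
      · rw [hw]
    · exact hold (Or.inl hd)

end Pool.Agent.Q195.WN
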