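import Pool.Agent.Q195.WN.Fin11
import Pool.Agent.TH885.NW.Prop

/-! The expected dimension for 11 and for 15 points, and the proportion of the multiplicities. -/

namespace Pool.Agent.Q195.WN

open Finset Pool.Agent.H932R3

/-- the degrees which stay open for 15 points -/
def Open15 (m d : ℕ) : Prop :=
  3 ∣ d ∧ √15 * m + (21 * √15 - 81) ≤ d ∧ 2 * (d : ℝ) + 3 < √15 * (2 * m + 1) ∧
    (2 * d + 3) ^ 2 + 6 ≠ 15 * (2 * m + 1) ^ 2

/-- the degrees which stay open for 11 points -/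
def Open11 (m d : ℕ) : Prop :=
  (3 ∣ d ∧ √11 * m + (171 * √11 - 567) ≤ d ∧ 2 * (d : ℝ) + 3 < √11 * (2 * m + 1) ∧
    (2 * d + 3) ^ 2 + 2 ≠ 11 * (2 * m + 1) ^ 2) ∨ (m = 28 ∧ d = 93) ∨ (m = 47 ∧ d = 156)

theorem exp15 (m : ℕ) :
    ∃ F : MvPolynomial (Fin 15 × Fin 2) ℚ, F ≠ 0 ∧ ∀ {L : Type} [Field L] [CharZero L]
      (P : Fin 15 → Fin 2 → L), MvPolynomial.aeval (fun ij : Fin 15 × Fin 2 => P ij.1 ij.2) F ≠ 0 →
      ∀ d : ℕ, ¬ Open15 m d → ExpDim L (fun _ => m) P d := by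
  refine Pool.Agent.TH864.SX.expDim_of_or' fun d hd => dich15 m d ?_
  unfold Good15
  unfold Open15 at hd
  by_contra hcon
  push Not at hcon
  obtain ⟨h1, h2, h3, h4⟩ := hcon
  exact hd ⟨h1, h2, h3, h4⟩

theorem exp11 (m : ℕ) :
    ∃ F : MvPolynomial (Fin 11 × Fin 2) ℚ, F ≠ 0 ∧ ∀ {L : Type} [Field L] [CharZero L]
      (P : Fin 11 → Fin 2 → L), MvPolynomial.aeval (fun ij : Fin 11 × Fin 2 => P ij.1 ij.2) F ≠ 0 →
      ∀ d : ℕ, ¬ Open11 m d → ExpDim L (fun _ => m) P d := by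
  refine Pool.Agent.TH864.SX.expDim_of_or' fun d hd => ?_
  unfold Open11 at hd
  push Not at hd
  obtain ⟨h0, h28, h47⟩ := hd
  refine dich11 m d (fun h => h28 h.1 h.2) (fun h => h47 h.1 h.2) ?_
  unfold Good11
  by_contra hcon
  push Not at hcon
  obtain ⟨h1, h2, h3, h4⟩ := hcon
  exact h4 (h0 h1 h2 h3)

/-- counting -/
theorem countw {ξ c t : ℝ} (hξ : Irrational ξ) (hct : c ≤ t) {P : ℕ → Prop} (E : Finset ℕ)
    (h : ∀ m, ¬ P m → m ∈ E ∨ ∃ D : ℤ, ξ * m + c ≤ D ∧ (D : ℝ) ≤ ξ * m + t) {ε : ℝ} (hε : 0 < ε) :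
    ∃ M0 : ℕ, ∀ M : ℕ, M0 ≤ M → (Set.ncard {m : ℕ | m < M ∧ ¬ P m} : ℝ) ≤ (t - c + ε) * M := by
  classical
  obtain ⟨M0, hM0⟩ := Pool.Agent.TH885.NW.count_sharp hξ 0 (-c) t (by linarith) (half_pos hε)
  obtain ⟨N, hN⟩ := exists_nat_gt (E.card / (ε / 2))
  refine ⟨max ⌈M0⌉₊ N, fun M hM => ?_⟩
  have hM1 : M0 ≤ M := (Nat.le_ceil M0).trans (by exact_mod_cast (le_max_left _ _).trans hM)
  have hM2 : (E.card : ℝ) ≤ ε / 2 * M := by
    have h1 : (N : ℝ) ≤ M := by exact_mod_cast (le_max_right _ _).trans hM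
    have h2 : (E.card : ℝ) / (ε / 2) < M := hN.trans_le h1
    rw [div_lt_iff₀ (half_pos hε)] at h2
    linarith
  have hset : {m : ℕ | m < M ∧ ¬ P m} = ↑((range M).filter fun m => ¬ P m) := by
    ext m
    simp
  rw [hset, Set.ncard_coe_finset]
  have h1 := hM0 M hM1 ((range M).filter fun m => ¬ P m ∧ m ∉ E)
    (fun m hm => mem_range.1 (mem_filter.1 hm).1) (fun m hm => by
      obtain ⟨h2, h3⟩ := (mem_filter.1 hm).2
      obtain ⟨D, h4, h5⟩ := (h m h2).resolve_left h3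
      exact ⟨D, by linarith, by linarith⟩)
  have h2 : ((range M).filter fun m => ¬ P m).card ≤
      ((range M).filter fun m => ¬ P m ∧ m ∉ E).card + E.card := by
    refine (card_le_card (t := ((range M).filter fun m => ¬ P m ∧ m ∉ E) ∪ E) ?_).trans
      (card_union_le _ _)
    intro m hm
    rw [mem_filter] at hm
    rw [mem_union, mem_filter]
    by_cases h3 : m ∈ E
    · exact Or.inr h3
    · exact Or.inl ⟨hm.1, hm.2, h3⟩
  have h2R : (((range M).filter fun m => ¬ P m).card : ℝ) ≤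
      ((range M).filter fun m => ¬ P m ∧ m ∉ E).card + E.card := by exact_mod_cast h2
  have h3 : (-c + t + ε / 2) * (M : ℝ) + ε / 2 * M = (t - c + ε) * M := by ring
  linarith

theorem irr15' : Irrational (√(15 : ℝ) / 3) := by
  have h := Pool.Agent.TH469.SX.irr15
  have e : √(15 : ℝ) / 3 = ((2 / 3 : ℚ) : ℝ) * Pool.Agent.TH469.SX.K15 - ((1 : ℚ) : ℝ) := by
    unfold Pool.Agent.TH469.SX.K15; push_cast; ring
  rw [e]
  exact (h.ratCast_mul (by norm_num)).sub_ratCast _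

theorem irr11' : Irrational (√(11 : ℝ) / 3) := by
  have h : Irrational (√(11 : ℝ)) := by
    have := Nat.Prime.irrational_sqrt (show Nat.Prime 11 by norm_num)
    exact_mod_cast this
  have := h.div_natCast (m := 3) (by norm_num)
  push_cast at this
  exact this

theorem count15 {P : ℕ → Prop} (h : ∀ m, ¬ P m → ∃ d, Open15 m d) {ε : ℝ} (hε : 0 < ε) :
    ∃ M0 : ℕ, ∀ M : ℕ, M0 ≤ M → (Set.ncard {m : ℕ | m < M ∧ ¬ P m} : ℝ) ≤
      ((159 - 41 * √15) / 6 + ε) * M := by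
  have hb := b15
  obtain ⟨M0, hM0⟩ := countw (c := (21 * √15 - 81) / 3) (t := (√15 - 3) / 6) irr15' (by linarith)
    (P := P) ∅ (fun m hm => by
      obtain ⟨d, h1, h2, h3, h4⟩ := h m hm
      obtain ⟨e, rfl⟩ := h1
      right
      refine ⟨e, ?_, ?_⟩
      · push_cast at h2 ⊢; linarith
      · push_cast at h3 ⊢; linarith) hε
  refine ⟨M0, fun M hM => ?_⟩
  have h1 := hM0 M hM
  have e : (√15 - 3) / 6 - (21 * √15 - 81) / 3 + ε = (159 - 41 * √15) / 6 + ε := by ring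
  rwa [e] at h1

theorem count11 {P : ℕ → Prop} (h : ∀ m, ¬ P m → ∃ d, Open11 m d) {ε : ℝ} (hε : 0 < ε) :
    ∃ M0 : ℕ, ∀ M : ℕ, M0 ≤ M → (Set.ncard {m : ℕ | m < M ∧ ¬ P m} : ℝ) ≤
      ((1131 - 341 * √11) / 6 + ε) * M := by
  have hb := b11
  have hb' : √(11 : ℝ) < 3.31664 := by
    rw [Real.sqrt_lt' (by norm_num)]; norm_num
  obtain ⟨M0, hM0⟩ := countw (c := (171 * √11 - 567) / 3) (t := (√11 - 3) / 6) irr11' (by linarith)
    (P := P) {28, 47} (fun m hm => by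
      obtain ⟨d, ⟨h1, h2, h3, h4⟩ | ⟨h1, _⟩ | ⟨h1, _⟩⟩ := h m hm
      · obtain ⟨e, rfl⟩ := h1
        right
        refine ⟨e, ?_, ?_⟩
        · push_cast at h2 ⊢; linarith
        · push_cast at h3 ⊢; linarith
      · left; simp [h1]
      · left; simp [h1]) hε
  refine ⟨M0, fun M hM => ?_⟩
  have h1 := hM0 M hM
  have e : (√11 - 3) / 6 - (171 * √11 - 567) / 3 + ε = (1131 - 341 * √11) / 6 + ε := by ring
  rwa [e] at h1

theorem num15 : (159 - 41 * √(15 : ℝ)) / 6 < 0.035 := by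
  have h : (3.87298 : ℝ) < √15 := by
    rw [Real.lt_sqrt (by norm_num)]; norm_num
  linarith

theorem numb11 : (1131 - 341 * √(11 : ℝ)) / 6 < 0.0052 := by
  have h : (3.3166247 : ℝ) < √11 := by
    rw [Real.lt_sqrt (by norm_num)]; norm_num
  linarith

end Pool.Agent.Q195.WN
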