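import Pool.Agent.Q195.WN.Lin

/-! The coefficients of `(1 - x y) ^ A * (1 - x y ^ 2) ^ B` have multiplicity `A + B` at `(1, 1)`. -/

namespace Pool.Agent.Q195.WN

open Finset Pool.Agent.TH176.Nag

/-- the coefficients of `(1 - x y) ^ A * (1 - x y ^ 2) ^ B` -/
def hc (A B : ℕ) (p : ℕ × ℕ) : ℚ :=
  if p.1 ≤ p.2 ∧ p.2 ≤ 2 * p.1 then
    (-1) ^ p.1 * (A.choose (2 * p.1 - p.2) : ℚ) * (B.choose (p.2 - p.1) : ℚ) else 0

theorem alt_sum {A a : ℕ} (h : a < A) :
    ∑ i ∈ range (A + 1), (-1 : ℚ) ^ i * (A.choose i : ℚ) * (i : ℚ) ^ a = 0 := by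
  have h1 := congrFun (fwdDiff_iter_pow_eq_zero_of_lt (R := ℚ) h) 0
  rw [fwdDiff_iter_eq_sum_shift] at h1
  have h2 : ∑ i ∈ range (A + 1), (-1 : ℚ) ^ i * (A.choose i : ℚ) * (i : ℚ) ^ a =
      (-1) ^ A * ∑ k ∈ range (A + 1), ((-1 : ℤ) ^ (A - k) * A.choose k) •
        (fun r : ℚ => r ^ a) (0 + k • 1) := by
    rw [mul_sum]
    refine sum_congr rfl fun k hk => ?_
    rw [mem_range] at hk
    have h3 : (-1 : ℚ) ^ A = (-1) ^ (A - k) * (-1) ^ k := by
      rw [← pow_add]; congr 1; omega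
    have h4 : (-1 : ℚ) ^ (A - k) * (-1) ^ (A - k) = 1 := by
      rw [← mul_pow]; norm_num
    rw [h3, zsmul_eq_mul]
    push_cast
    simp only [nsmul_eq_mul, mul_one, zero_add]
    linear_combination (-((-1 : ℚ) ^ k * (A.choose k : ℚ) * (k : ℚ) ^ a)) * h4
  rw [h2]
  have h5 : ∑ k ∈ range (A + 1), ((-1 : ℤ) ^ (A - k) * A.choose k) •
        (fun r : ℚ => r ^ a) (0 + k • 1) = 0 := h1
  rw [h5, mul_zero]

theorem alt_sum2 {A B : ℕ} {R : ℚ × ℚ → ℚ} (hR : R ∈ PF ℚ (A + B)) :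
    ∑ i ∈ range (A + 1), ∑ j ∈ range (B + 1),
      (-1 : ℚ) ^ i * (A.choose i : ℚ) * ((-1 : ℚ) ^ j * (B.choose j : ℚ)) * R (i, j) = 0 := by
  induction hR using Submodule.span_induction with
  | mem x h =>
    obtain ⟨a, b, hab, rfl⟩ := h
    have e : ∑ i ∈ range (A + 1), ∑ j ∈ range (B + 1),
        (-1 : ℚ) ^ i * (A.choose i : ℚ) * ((-1 : ℚ) ^ j * (B.choose j : ℚ)) *
          ((i : ℚ) ^ a * (j : ℚ) ^ b) =
        (∑ i ∈ range (A + 1), (-1 : ℚ) ^ i * (A.choose i : ℚ) * (i : ℚ) ^ a) *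
        (∑ j ∈ range (B + 1), (-1 : ℚ) ^ j * (B.choose j : ℚ) * (j : ℚ) ^ b) := by
      rw [sum_mul_sum]
      refine sum_congr rfl fun i _ => sum_congr rfl fun j _ => ?_
      ring
    simp only
    rw [e]
    rcases lt_or_ge a A with h1 | h1
    · rw [alt_sum h1, zero_mul]
    · rw [alt_sum (show b < B by omega), mul_zero]
  | zero => simp
  | add x y _ _ hx hy =>
    simp only [Pi.add_apply, mul_add, sum_add_distrib]
    rw [hx, hy, add_zero]
  | smul c x _ hx =>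
    have e : ∑ i ∈ range (A + 1), ∑ j ∈ range (B + 1),
        (-1 : ℚ) ^ i * (A.choose i : ℚ) * ((-1 : ℚ) ^ j * (B.choose j : ℚ)) * (c • x) (i, j) =
        c * ∑ i ∈ range (A + 1), ∑ j ∈ range (B + 1),
        (-1 : ℚ) ^ i * (A.choose i : ℚ) * ((-1 : ℚ) ^ j * (B.choose j : ℚ)) * x (i, j) := by
      rw [mul_sum]
      refine sum_congr rfl fun i _ => ?_
      rw [mul_sum]
      refine sum_congr rfl fun j _ => ?_
      simp only [Pi.smul_apply, smul_eq_mul]; ring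
    rw [e, hx, mul_zero]

theorem hc_mf {A B : ℕ} {S : Finset (ℕ × ℕ)} (hS : ∀ i ≤ A, ∀ j ≤ B, (i + j, i + 2 * j) ∈ S) :
    Mf (A + B) S (hc A B) := by
  classical
  intro R hR
  have h1 := alt_sum2 (A := A) (B := B) (PF_comp_aff hR 0 1 1 0 1 2)
  rw [← sum_product'] at h1
  set T := range (A + 1) ×ˢ range (B + 1) with hT
  set φ : ℕ × ℕ → ℕ × ℕ := fun q => (q.1 + q.2, q.1 + 2 * q.2) with hφ
  have hinj : ∀ p ∈ T, ∀ q ∈ T, φ p = φ q → p = q := by
    intro p _ q _ h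
    simp only [hφ, Prod.mk.injEq] at h
    exact Prod.ext (by omega) (by omega)
  have hsub : T.image φ ⊆ S := by
    intro p hp
    obtain ⟨q, hq, rfl⟩ := mem_image.1 hp
    rw [hT, mem_product, mem_range, mem_range] at hq
    exact hS q.1 (by omega) q.2 (by omega)
  rw [← sum_subset hsub, sum_image hinj, ← h1]
  · refine sum_congr rfl fun q hq => ?_
    have e1 : (φ q).1 ≤ (φ q).2 ∧ (φ q).2 ≤ 2 * (φ q).1 := by
      simp only [hφ]; omega
    unfold hc
    rw [if_pos e1]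
    have e2 : 2 * (φ q).1 - (φ q).2 = q.1 := by simp only [hφ]; omega
    have e3 : (φ q).2 - (φ q).1 = q.2 := by simp only [hφ]; omega
    rw [e2, e3]
    simp only [hφ]
    have e4 : (((q.1 + q.2 : ℕ) : ℚ), ((q.1 + 2 * q.2 : ℕ) : ℚ)) =
        (0 + 1 * (q.1 : ℚ) + 1 * (q.2 : ℚ), 0 + 1 * (q.1 : ℚ) + 2 * (q.2 : ℚ)) := by
      ext
      · push_cast; ring
      · push_cast; ring
    rw [e4, pow_add]
    ring
  · intro p _ hp
    have : hc A B p = 0 := by
      unfold hc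
      split_ifs with h2
      · rcases le_or_gt (2 * p.1 - p.2) A with h3 | h3
        · rcases le_or_gt (p.2 - p.1) B with h4 | h4
          · exfalso
            apply hp
            refine mem_image.2 ⟨(2 * p.1 - p.2, p.2 - p.1), ?_, ?_⟩
            · rw [hT, mem_product, mem_range, mem_range]
              exact ⟨by simp only; omega, by simp only; omega⟩
            · simp only [hφ]
              exact Prod.ext (by simp only; omega) (by simp only; omega)
          · rw [Nat.choose_eq_zero_of_lt h4]; simp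
        · rw [Nat.choose_eq_zero_of_lt h3]; simp
      · rfl
    rw [this, mul_zero]

end Pool.Agent.Q195.WN
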