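import Pool.Agent.Q195.WN.Lin

/-! Univariate interpolation with zeros of high order, and the initial columns of an array with
`n` points on the line `y = 1`. -/

namespace Pool.Agent.Q195.WN

open Finset Polynomial Pool.Agent.TH176.Nag

theorem desc_cast (t a : ℕ) : ∏ j ∈ range a, ((t : ℚ) - (j : ℚ)) = (t.descFactorial a : ℚ) := by
  induction a with
  | zero => simp
  | succ a ih =>
    rw [prod_range_succ, ih, Nat.descFactorial_succ]
    rcases le_or_gt a t with h | h
    · push_cast [Nat.cast_sub h]; ring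
    · rw [Nat.descFactorial_eq_zero_iff_lt.2 h]; simp

theorem polyz {n r T0 N : ℕ} {x : ℕ → ℚ} (hx : ∀ i < n, ∀ j < n, x i = x j → i = j)
    (hx0 : ∀ i < n, x i ≠ 0) {γ : ℕ → ℚ} (h0 : ∀ t < N, γ t ≠ 0 → T0 ≤ t ∧ t < T0 + n * r)
    (hc : ∀ i < n, ∀ a < r, ∑ t ∈ range N, (t.descFactorial a : ℚ) * (γ t * x i ^ t) = 0) :
    ∀ t < N, γ t = 0 := by
  classical
  set F : ℚ[X] := ∑ t ∈ range N, C (γ t) * X ^ t with hF
  have hcoe : ∀ t, F.coeff t = if t < N then γ t else 0 := by
    intro t
    rw [hF, finsetSum_coeff]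
    simp only [coeff_C_mul_X_pow]
    rw [Finset.sum_ite_eq]
    simp
  suffices hF0 : F = 0 by
    intro t ht
    have := hcoe t
    rw [hF0, if_pos ht, coeff_zero] at this
    exact this.symm
  by_contra hF0
  have hd1 : X ^ T0 ∣ F := by
    rw [X_pow_dvd_iff]
    intro t ht
    rw [hcoe]
    split_ifs with h1
    · by_contra h2
      have := (h0 t h1 h2).1
      omega
    · rfl
  have hd2 : ∀ i ∈ range n, (X - C (x i)) ^ r ∣ F := by
    intro i hi
    rw [mem_range] at hi
    rcases Nat.eq_zero_or_pos r with hr | hr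
    · subst hr; simp
    rw [← le_rootMultiplicity_iff hF0]
    obtain ⟨r', rfl⟩ : ∃ r', r = r' + 1 := ⟨r - 1, by omega⟩
    rw [Nat.succ_le_iff, lt_rootMultiplicity_iff_isRoot_iterate_derivative hF0]
    intro a ha
    have h1 := hc i hi a (by omega)
    have h2 : eval (x i) (derivative^[a] F) * x i ^ a = 0 := by
      rw [← h1, hF, iterate_derivative_sum, eval_finsetSum, sum_mul]
      refine sum_congr rfl fun t _ => ?_
      rw [iterate_derivative_C_mul, iterate_derivative_X_pow_eq_natCast_mul]
      simp only [eval_mul, eval_C, eval_pow, eval_X, eval_natCast]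
      rcases le_or_gt a t with h3 | h3
      · have : x i ^ t = x i ^ (t - a) * x i ^ a := by rw [← pow_add]; congr 1; omega
        rw [this]; ring
      · rw [Nat.descFactorial_eq_zero_iff_lt.2 h3]; simp
    exact (mul_eq_zero.1 h2).resolve_right (pow_ne_zero _ (hx0 i hi))
  have hd3 : ∏ i ∈ range n, (X - C (x i)) ^ r ∣ F := by
    refine Finset.prod_dvd_of_coprime ?_ hd2
    intro i hi j hj hij
    rw [mem_coe, mem_range] at hi hj
    refine IsCoprime.pow ?_
    refine isCoprime_X_sub_C_of_isUnit_sub ?_
    rw [isUnit_iff_ne_zero, sub_ne_zero]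
    exact fun h => hij (hx i hi j hj h)
  have hcop : IsCoprime (X ^ T0 : ℚ[X]) (∏ i ∈ range n, (X - C (x i)) ^ r) := by
    refine IsCoprime.prod_right fun i hi => ?_
    refine IsCoprime.pow ?_
    have := isCoprime_X_sub_C_of_isUnit_sub (a := (0 : ℚ)) (b := x i) (by
      rw [isUnit_iff_ne_zero, zero_sub, neg_ne_zero]
      exact hx0 i (mem_range.1 hi))
    simpa using this
  have hd4 := hcop.mul_dvd hd1 hd3
  have h5 := natDegree_le_of_dvd hd4 hF0
  have hm1 : (∏ i ∈ range n, (X - C (x i)) ^ r).Monic :=
    monic_prod_of_monic _ _ fun i _ => (monic_X_sub_C _).pow r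
  have h6 : (∏ i ∈ range n, (X - C (x i)) ^ r).natDegree = n * r := by
    rw [natDegree_prod_of_monic _ _ fun i _ => (monic_X_sub_C _).pow r]
    simp
  rw [(monic_X_pow T0).natDegree_mul hm1, natDegree_X_pow, h6] at h5
  have h7 : F.coeff F.natDegree ≠ 0 := by
    rw [coeff_natDegree]
    exact leadingCoeff_ne_zero.2 hF0
  rw [hcoe] at h7
  split_ifs at h7 with h8
  · have := (h0 _ h8 h7).2
    omega
  · exact h7 rfl

/-- the vanishing of a column to order `k` -/
def Cv (k : ℕ) (S : Finset (ℕ × ℕ)) (a : ℕ × ℕ → ℚ) (t : ℕ) : Prop :=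
  ∀ Q : ℚ[X], Q.natDegree < k → ∑ p ∈ S.filter (fun p => p.1 = t), Q.eval (p.2 : ℚ) * a p = 0

/-- a column with few points that vanishes to high order is zero -/
theorem Cv.zero {k : ℕ} {S : Finset (ℕ × ℕ)} {a : ℕ × ℕ → ℚ} {t : ℕ} (h : Cv k S a t) {lo : ℕ}
    (hc : ∀ p ∈ S, p.1 = t → a p ≠ 0 → lo ≤ p.2 ∧ p.2 < lo + k) : ∀ p ∈ S, p.1 = t → a p = 0 := by
  classical
  intro p hp hpt
  by_contra hcon
  set F := S.filter (fun p => p.1 = t ∧ a p ≠ 0) with hF
  have hcard : F.card ≤ k := by
    have h1 : F.card = (F.image Prod.snd).card := by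
      rw [card_image_of_injOn]
      intro p hp q hq hpq
      rw [hF, mem_coe, mem_filter] at hp hq
      exact Prod.ext (hp.2.1.trans hq.2.1.symm) hpq
    rw [h1]
    refine (card_le_card (t := Ico lo (lo + k)) ?_).trans (by simp)
    intro u hu
    obtain ⟨q, hq, rfl⟩ := mem_image.1 hu
    rw [hF, mem_filter] at hq
    exact mem_Ico.2 (hc q hq.1 hq.2.1 hq.2.2)
  refine hcon (vdm F (fun p => ((p.2 : ℕ) : ℚ)) ?_ a k hcard ?_ p (mem_filter.2 ⟨hp, hpt, hcon⟩))
  · intro p hp q hq hpq
    rw [hF, mem_filter] at hp hq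
    exact Prod.ext (hp.2.1.trans hq.2.1.symm) (by exact_mod_cast hpq)
  · intro Q hQ
    rw [← h Q hQ]
    refine sum_subset ?_ ?_
    · intro q hq
      rw [hF, mem_filter] at hq
      exact mem_filter.2 ⟨hq.1, hq.2.1⟩
    · intro q hq hq2
      rw [mem_filter] at hq
      have : a q = 0 := by
        by_contra h3
        exact hq2 (mem_filter.2 ⟨hq.1, hq.2, h3⟩)
      rw [this, mul_zero]

/-- **the initial column**: `n` points on the line `y = 1` -/
theorem init {n h m : ℕ} {K : ℝ} (hK0 : 0 < K) (hKn : K < n) {S : Finset (ℕ × ℕ)} {a : ℕ × ℕ → ℚ}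
    (hS : ∀ p ∈ S, a p ≠ 0 → (p.1 : ℝ) ≤ K * p.2 ∧ p.2 ≤ h)
    (hmf : ∀ i < n, Mf m S (fun p => a p * ((i : ℚ) + 1) ^ p.1))
    {t' : ℕ} (h0 : ∀ p ∈ S, p.1 < t' → a p = 0) {k : ℕ} (hk : k < m)
    (hD : K * ((h : ℝ) - k) - n * ((m : ℝ) - k) < t') : ∀ t, Cv (k + 1) S a t := by
  classical
  have claim : ∀ l, l ≤ k + 1 → ∀ t, Cv l S a t := by
    intro l
    induction l with
    | zero => intro _ t Q hQ; exact absurd hQ (Nat.not_lt_zero _)
    | succ l ih =>
      intro hl t Q hQ
      have ih := ih (by omega)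
      -- columns beyond the bound vanish
      have hcol : ∀ t : ℕ, K * ((h : ℝ) - l) < t → ∀ p ∈ S, p.1 = t → a p = 0 := by
        intro t ht
        refine (ih t).zero (lo := h + 1 - l) ?_
        intro p hp hpt hap
        obtain ⟨h1, h2⟩ := hS p hp hap
        have h3 : K * ((h : ℝ) - l) < K * p.2 := by
          have : ((p.1 : ℕ) : ℝ) = t := by exact_mod_cast hpt
          linarith
        have h4 : (h : ℝ) - l < p.2 := lt_of_mul_lt_mul_left h3 hK0.le
        have h5 : h < p.2 + l := by
          have : (h : ℝ) < p.2 + l := by linarith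
          exact_mod_cast this
        omega
      have hkR : (l : ℝ) ≤ k := by
        have : l ≤ k := by omega
        exact_mod_cast this
      have hDl : K * ((h : ℝ) - l) < t' + n * ((m : ℝ) - l) := by
        nlinarith
      obtain ⟨N, hN⟩ : ∃ N, ∀ p ∈ S, p.1 < N := by
        refine ⟨(S.image Prod.fst).sup id + 1, fun p hp => ?_⟩
        have := Finset.le_sup (f := id) (mem_image_of_mem Prod.fst hp)
        simp only [id] at this
        omega
      set γ : ℕ → ℚ := fun t => ∑ p ∈ S.filter (fun p => p.1 = t), Q.eval (p.2 : ℚ) * a p with hγ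
      have hpoly : ∀ t < N, γ t = 0 := by
        refine polyz (n := n) (r := m - l) (T0 := t') (x := fun i => (i : ℚ) + 1) ?_ ?_ ?_ ?_
        · intro i _ j _ hij
          have : (i : ℚ) = j := by linarith
          exact_mod_cast this
        · intro i _
          positivity
        · intro t _ ht
          have h1 : ∃ p ∈ S.filter (fun p => p.1 = t), a p ≠ 0 := by
            by_contra hcon
            push Not at hcon
            apply ht
            rw [hγ]
            exact sum_eq_zero fun p hp => by rw [hcon p hp, mul_zero]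
          obtain ⟨p, hp, hap⟩ := h1
          rw [mem_filter] at hp
          constructor
          · by_contra hcon
            exact hap (h0 p hp.1 (by omega))
          · by_contra hcon
            refine hap (hcol t ?_ p hp.1 hp.2)
            refine hDl.trans_le ?_
            have : t' + n * (m - l) ≤ t := by omega
            have h2 : ((t' + n * (m - l) : ℕ) : ℝ) ≤ t := by exact_mod_cast this
            rw [Nat.cast_add, Nat.cast_mul, Nat.cast_sub (by omega)] at h2
            exact h2
        · intro i hi b hb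
          have h1 : (fun u : ℚ × ℚ => (∏ j ∈ range b, (u.1 - (j : ℚ))) * Q.eval u.2) ∈ PF ℚ m := by
            have h2 := PF_prod (PF_poly hQ) ((range b).image (fun j : ℕ => (j : ℤ))) 0
            rw [card_image_of_injective _ Nat.cast_injective, card_range] at h2
            have h3 := PF_mono (show (l + 1) + b ≤ m by omega) h2
            have e1 : (fun u : ℚ × ℚ => (∏ j ∈ range b, (u.1 - (j : ℚ))) * Q.eval u.2) =
                (fun u : ℚ × ℚ => (∏ c ∈ (range b).image (fun j : ℕ => (j : ℤ)),
                  (u.1 - 0 * u.2 - (c : ℚ))) * Q.eval u.2) := by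
              funext u
              rw [prod_image (fun x _ y _ hxy => by exact_mod_cast hxy)]
              simp
            rw [e1]
            exact h3
          have h2 := hmf i hi _ h1
          rw [← h2]
          have h3 : ∀ p ∈ S, p.1 ∈ range N := fun p hp => mem_range.2 (hN p hp)
          rw [← sum_fiberwise_of_maps_to h3]
          refine sum_congr rfl fun t _ => ?_
          rw [hγ, sum_mul, mul_sum]
          refine sum_congr rfl fun p hp => ?_
          rw [mem_filter] at hp
          obtain ⟨hp1, rfl⟩ := hp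
          rw [desc_cast]
          ring
      by_cases ht : t < N
      · exact hpoly t ht
      · refine sum_eq_zero fun p hp => ?_
        rw [mem_filter] at hp
        have := hN p hp.1
        omega
  exact claim (k + 1) le_rfl

end Pool.Agent.Q195.WN
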