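import Pool.Agent.TH176.Nag.Base

/-! Linear algebra of arrays with polynomial conditions. -/

namespace Pool.Agent.Q195.WN

open Finset Polynomial Pool.Agent.TH176.Nag

theorem PF_poly {w : ℕ} {Q : ℚ[X]} (hQ : Q.natDegree < w) :
    (fun u : ℚ × ℚ => Q.eval u.2) ∈ PF ℚ w := by
  have e : (fun u : ℚ × ℚ => Q.eval u.2) =
      ∑ i ∈ range w, Q.coeff i • (fun u : ℚ × ℚ => u.1 ^ 0 * u.2 ^ i) := by
    funext u
    rw [Polynomial.eval_eq_sum_range' hQ, Finset.sum_apply]
    exact Finset.sum_congr rfl fun i _ => by simp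
  rw [e]
  exact Submodule.sum_mem _ fun i hi => Submodule.smul_mem _ _
    (mem_PF_mono (by simpa using hi))

theorem PF_prod {w : ℕ} {P : ℚ × ℚ → ℚ} (hP : P ∈ PF ℚ w) (C : Finset ℤ) (e : ℚ) :
    (fun u => (∏ c ∈ C, (u.1 - e * u.2 - (c : ℚ))) * P u) ∈ PF ℚ (w + C.card) := by
  classical
  induction C using Finset.induction_on with
  | empty => simpa using hP
  | insert c C hc ih =>
    rw [card_insert_of_notMem hc, ← add_assoc]
    have h1 := PF_mul_aff ih (-(c : ℚ)) 1 (-e)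
    have e1 : (fun u : ℚ × ℚ => (∏ c ∈ insert c C, (u.1 - e * u.2 - (c : ℚ))) * P u) =
        (fun u => (-(c : ℚ) + 1 * u.1 + (-e) * u.2) *
          ((∏ c ∈ C, (u.1 - e * u.2 - (c : ℚ))) * P u)) := by
      funext u
      rw [prod_insert hc]
      ring
    rw [e1]
    exact h1

/-- the Vandermonde argument -/
theorem vdm {ι : Type*} (F : Finset ι) (z : ι → ℚ) (hz : ∀ p ∈ F, ∀ q ∈ F, z p = z q → p = q)
    (a : ι → ℚ) (l : ℕ) (hF : F.card ≤ l)
    (h : ∀ Q : ℚ[X], Q.natDegree < l → ∑ p ∈ F, Q.eval (z p) * a p = 0) : ∀ p ∈ F, a p = 0 := by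
  classical
  intro p hp
  have h1 : 0 < F.card := card_pos.2 ⟨p, hp⟩
  have h2 := h (∏ q ∈ F.erase p, (X - C (z q))) (by
    rw [natDegree_finsetProd_X_sub_C_eq_card, card_erase_of_mem hp]
    omega)
  rw [Finset.sum_eq_single p] at h2
  · rcases mul_eq_zero.1 h2 with h3 | h3
    · exfalso
      rw [eval_prod, prod_eq_zero_iff] at h3
      obtain ⟨q, hq, h4⟩ := h3
      rw [mem_erase] at hq
      simp only [eval_sub, eval_X, eval_C, sub_eq_zero] at h4
      exact hq.1 (hz p hp q hq.2 h4).symm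
    · exact h3
  · intro q hq hqp
    have : eval (z q) (∏ q ∈ F.erase p, (X - C (z q))) = 0 := by
      rw [eval_prod]
      exact prod_eq_zero (mem_erase.2 ⟨hqp, hq⟩) (by simp)
    rw [this, zero_mul]
  · intro h3
    exact absurd hp h3

/-- multiplicity `m` at the point `(1, 1)` -/
def Mf (m : ℕ) (S : Finset (ℕ × ℕ)) (a : ℕ × ℕ → ℚ) : Prop :=
  ∀ R ∈ PF ℚ m, ∑ p ∈ S, R ((p.1 : ℚ), (p.2 : ℚ)) * a p = 0

theorem Mf.mono {m m' : ℕ} {S : Finset (ℕ × ℕ)} {a : ℕ × ℕ → ℚ} (h : Mf m S a) (hm : m' ≤ m) :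
    Mf m' S a := fun R hR => h R (PF_mono hm hR)

theorem Mf.sub {m : ℕ} {S T : Finset (ℕ × ℕ)} {a : ℕ × ℕ → ℚ} (h : Mf m S a) (hT : T ⊆ S)
    (h0 : ∀ p ∈ S, p ∉ T → a p = 0) : Mf m T a := by
  intro R hR
  rw [← h R hR]
  exact sum_subset hT fun p hp hpT => by rw [h0 p hp hpT, mul_zero]

/-- **peeling lines** -/
theorem peel0 {m : ℕ} {S : Finset (ℕ × ℕ)} {a : ℕ × ℕ → ℚ} (h : Mf m S a) (e : ℤ)
    (ha : ∀ p ∈ S, a p ≠ 0)
    (H : ∀ l ≤ m, ∀ C : Finset ℤ,
      (∀ c ∈ C, l + 1 ≤ (S.filter (fun p => (p.1 : ℤ) - e * p.2 = c)).card) → C.card + l ≤ m) :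
    S = ∅ := by
  classical
  set cl : ℕ × ℕ → ℤ := fun p => (p.1 : ℤ) - e * p.2 with hcl
  have hinj : ∀ c : ℤ, ∀ p ∈ S.filter (fun p => cl p = c), ∀ q ∈ S.filter (fun p => cl p = c),
      ((p.2 : ℕ) : ℚ) = ((q.2 : ℕ) : ℚ) → p = q := by
    intro c p hp q hq hpq
    rw [mem_filter] at hp hq
    have h2 : p.2 = q.2 := by exact_mod_cast hpq
    have h1 : (p.1 : ℤ) = q.1 := by
      have h3 := hp.2
      have h4 := hq.2
      simp only [hcl] at h3 h4
      rw [h2] at h3
      linarith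
    have h1' : p.1 = q.1 := by exact_mod_cast h1
    exact Prod.ext h1' h2
  -- sizes
  have size : ∀ l, (∀ c : ℤ, ∀ Q : ℚ[X], Q.natDegree < l →
      ∑ p ∈ S.filter (fun p => cl p = c), Q.eval (p.2 : ℚ) * a p = 0) →
      ∀ c ∈ S.image cl, l + 1 ≤ (S.filter (fun p => cl p = c)).card := by
    intro l hl c hc
    by_contra hcon
    obtain ⟨p, hp, hpc⟩ := mem_image.1 hc
    have := vdm (S.filter (fun p => cl p = c)) (fun p => ((p.2 : ℕ) : ℚ)) (hinj c) a l
      (by omega) (hl c) p (mem_filter.2 ⟨hp, hpc⟩)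
    exact ha p hp this
  have claim : ∀ l, l ≤ m → ∀ c : ℤ, ∀ Q : ℚ[X], Q.natDegree < l →
      ∑ p ∈ S.filter (fun p => cl p = c), Q.eval (p.2 : ℚ) * a p = 0 := by
    intro l
    induction l with
    | zero => intro _ c Q hQ; exact absurd hQ (Nat.not_lt_zero _)
    | succ l ih =>
      intro hl c Q hQ
      have h1 := H l (by omega) (S.image cl) (size l (ih (by omega)))
      by_cases hc : c ∈ S.image cl
      · have h2 : (S.image cl).card = ((S.image cl).erase c).card + 1 := by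
          rw [card_erase_of_mem hc]
          have := card_pos.2 ⟨c, hc⟩
          omega
        have h3 := h _ (PF_mono (show (l + 1) + ((S.image cl).erase c).card ≤ m by omega)
          (PF_prod (PF_poly hQ) ((S.image cl).erase c) (e : ℚ)))
        have h4 : (∏ c' ∈ (S.image cl).erase c, ((c : ℚ) - (c' : ℚ))) *
            ∑ p ∈ S.filter (fun p => cl p = c), Q.eval (p.2 : ℚ) * a p = 0 := by
          rw [← h3, mul_sum, sum_filter]
          refine sum_congr rfl fun p hp => ?_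
          have e1 : (p.1 : ℚ) - (e : ℚ) * (p.2 : ℚ) = ((cl p : ℤ) : ℚ) := by
            simp only [hcl]; push_cast; ring
          simp only
          rw [e1]
          split_ifs with h5
          · rw [h5]; ring
          · symm
            have : ∏ c' ∈ (S.image cl).erase c, (((cl p : ℤ) : ℚ) - (c' : ℚ)) = 0 :=
              prod_eq_zero (i := cl p) (mem_erase.2 ⟨h5, mem_image_of_mem _ hp⟩) (by simp)
            rw [this, zero_mul, zero_mul]
        rcases mul_eq_zero.1 h4 with h5 | h5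
        · exfalso
          rw [prod_eq_zero_iff] at h5
          obtain ⟨c', hc', h6⟩ := h5
          rw [sub_eq_zero] at h6
          have : c = c' := by exact_mod_cast h6
          exact (mem_erase.1 hc').1 this.symm
        · exact h5
      · have : S.filter (fun p => cl p = c) = ∅ := by
          rw [filter_eq_empty_iff]
          intro p hp hpc
          exact hc (mem_image.2 ⟨p, hp, hpc⟩)
        rw [this, sum_empty]
  have h1 := H m le_rfl (S.image cl) (size m (claim m le_rfl))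
  have h2 : (S.image cl).card = 0 := by omega
  rw [card_eq_zero, image_eq_empty] at h2
  exact h2

/-- peeling lines, with a larger set -/
theorem peel {m : ℕ} {S B : Finset (ℕ × ℕ)} {a : ℕ × ℕ → ℚ} (h : Mf m S a) (e : ℤ)
    (hB : ∀ p ∈ S, a p ≠ 0 → p ∈ B)
    (H : ∀ l ≤ m, ∀ C : Finset ℤ,
      (∀ c ∈ C, l + 1 ≤ (B.filter (fun p => (p.1 : ℤ) - e * p.2 = c)).card) → C.card + l ≤ m) :
    ∀ p ∈ S, a p = 0 := by
  classical
  have h1 : S.filter (fun p => a p ≠ 0) = ∅ := by
    refine peel0 (h.sub (filter_subset _ _) ?_) e (fun p hp => (mem_filter.1 hp).2) ?_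
    · intro p hp hp2
      by_contra hcon
      exact hp2 (mem_filter.2 ⟨hp, hcon⟩)
    · intro l hl C hC
      refine H l hl C fun c hc => (hC c hc).trans (card_le_card ?_)
      intro p hp
      rw [mem_filter, mem_filter] at hp
      exact mem_filter.2 ⟨hB p hp.1.1 hp.1.2, hp.2⟩
  intro p hp
  by_contra hcon
  have : p ∈ S.filter (fun p => a p ≠ 0) := mem_filter.2 ⟨hp, hcon⟩
  rw [h1] at this
  simp at this

end Pool.Agent.Q195.WN
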