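import Pool.Agent.Q195.WN.Plane

/-! The degrees in which exactly one monomial is left. -/

namespace Pool.Agent.Q195.WN

open Finset Pool.Agent.TH176.Nag Pool.Agent.TH603.Sur Pool.Agent.TH603.Cut Pool.Agent.TH641.NW
  Pool.Agent.H932R3 Pool.Agent.TH469.SX
open Pool.Agent.TH864.SX (Fb Fa Slp Blk blk_reg)

variable {M q : ℕ} {K : ℝ}

/-- the open block, from its flattening -/
theorem Emp_bo {d : ℕ} {ι : Type} {w : ι → ℕ} (h : Slp M q K) (hE : Emp w (Fb q K d)) :
    Emp w (Bo M K d) := by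
  have hM : (0 : ℝ) < M := by exact_mod_cast h.hM
  have hK := h.K0
  have hq : (0 : ℝ) < q := by exact_mod_cast h.hq
  refine Emp_flat (S' := Fb q K d) 1 0 1 0 (by norm_num) ?_ hE
  rintro ⟨t, j⟩ T k ⟨g1, g2, -⟩ ⟨-, -, g3⟩ hk
  simp only at g1 g2 g3
  have e : ((1 * t + 0 * j, (k : ℤ)) : ℤ × ℤ) = (t, (k : ℤ)) := by simp
  simp only
  rw [e]
  have hkR : (k : ℝ) ≤ T := by exact_mod_cast hk
  have hk0 : (0 : ℝ) ≤ k := Nat.cast_nonneg k
  have hj0 : (0 : ℝ) ≤ j := by exact_mod_cast g1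
  push_cast at g2 g3
  simp only [zero_mul, sub_zero, one_mul] at g2 g3
  have g2' := h.low.1 g2.le
  have g3' := h.up.1 g3.le
  have hT : (T : ℝ) ≤ q * t := by linarith
  have ht0 : 0 < t := by
    have hT0 : (0 : ℝ) ≤ T := le_trans hk0 hkR
    rcases lt_trichotomy t 0 with ht | ht | ht
    · exfalso
      have ht' : (t : ℝ) < 0 := by exact_mod_cast ht
      have : (q : ℝ) * t < 0 := mul_neg_of_pos_of_neg hq ht'
      linarith
    · exfalso
      rw [ht] at g2 g3
      push_cast at g2 g3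
      have hKM : 0 < K - M := by linarith [h.hMK]
      have h1 : (d : ℝ) / 3 - j < 0 := by
        by_contra hcon
        push Not at hcon
        have := mul_nonneg hKM.le hcon
        linarith
      have h2 : K * ((d : ℝ) / 3 - (j + T)) < 0 :=
        mul_neg_of_pos_of_neg hK (by linarith)
      linarith
    · exact ht
  refine ⟨by simp only; omega, by simp, ?_, ?_⟩
  · simp only
    have h5 : (k : ℝ) ≤ q * t := by linarith
    have h6 : (k : ℤ) ≤ q * t := by exact_mod_cast h5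
    rcases h6.lt_or_eq with h7 | h7
    · exact h7
    · exfalso
      have h8 : (k : ℝ) = q * t := by exact_mod_cast h7
      refine h.ne (d := d) (t := t) (z := j) (by omega) ?_
      linarith
  · simp only
    have h5 : (t : ℝ) ≤ K * ((d : ℝ) / 3 - (j + T)) := g3.le
    have h6 : K * (k : ℝ) ≤ K * (j + T) := mul_le_mul_of_nonneg_left (by linarith) hK.le
    push_cast
    linarith

/-- the number of points of the open block -/
theorem card_bo (h : Slp M q K) (u : ℕ) :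
    ∃ T : Finset (ℤ × ℤ), (↑T : Set (ℤ × ℤ)) ⊆ Bo M K (3 * u) ∧ T.card = M * (u + 1).choose 2 := by
  classical
  have hK := h.K0
  have hKM : 0 < K - M := by linarith [h.hMK]
  refine ⟨((range u).sigma (fun s => Ioc ⌊(K - M) * ((u : ℝ) - s)⌋ ⌊K * ((u : ℝ) - s)⌋)).image
    (fun x => (x.2, (x.1 : ℤ))), ?_, ?_⟩
  · intro p hp
    rw [coe_image] at hp
    obtain ⟨x, hx, rfl⟩ := hp
    rw [mem_coe, mem_sigma, mem_range, mem_Ioc] at hx
    obtain ⟨h1, h2, h3⟩ := hx
    have h1R : (x.1 : ℝ) < u := by exact_mod_cast h1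
    have hpos : 0 < (K - M) * ((u : ℝ) - x.1) := mul_pos hKM (by linarith)
    have hfl : 0 ≤ ⌊(K - M) * ((u : ℝ) - x.1)⌋ := Int.floor_nonneg.2 hpos.le
    have e : (((3 * u : ℕ) : ℝ) / 3 - ((x.1 : ℤ) : ℝ)) = (u : ℝ) - x.1 := by push_cast; ring
    refine bo_of_blk h (by omega) (by omega) ?_ ?_
    · rw [e]
      have h4 := Int.lt_floor_add_one ((K - M) * ((u : ℝ) - x.1))
      have h5 : ((⌊(K - M) * ((u : ℝ) - x.1)⌋ + 1 : ℤ) : ℝ) ≤ x.2 := by exact_mod_cast h2
      push_cast at h5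
      linarith
    · rw [e]
      exact Int.le_floor.1 h3
  · rw [card_image_of_injective]
    · rw [card_sigma]
      have h1 : ∀ s ∈ range u, (Ioc ⌊(K - M) * ((u : ℝ) - s)⌋ ⌊K * ((u : ℝ) - s)⌋).card =
          M * (u - s) := by
        intro s hs
        rw [mem_range] at hs
        rw [Int.card_Ioc]
        have e : K * ((u : ℝ) - s) = (K - M) * ((u : ℝ) - s) + ((M * (u - s) : ℕ) : ℝ) := by
          rw [Nat.cast_mul, Nat.cast_sub hs.le]; ring
        rw [e, Int.floor_add_natCast]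
        omega
      rw [sum_congr rfl h1, ← mul_sum]
      congr 1
      have h2 : ∑ s ∈ range u, (u - s) = ∑ s ∈ range u, (s + 1) := by
        rw [← sum_range_reflect]
        refine sum_congr rfl fun s hs => ?_
        rw [mem_range] at hs
        omega
      rw [h2]
      have h3 := Finset.sum_range_succ' (fun i => i) u
      rw [add_zero] at h3
      rw [← h3, Finset.sum_range_id, Nat.choose_two_right]
    · rintro ⟨a, b⟩ ⟨c, d⟩ hab
      simp only [Prod.mk.injEq, Nat.cast_inj] at hab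
      obtain ⟨h1, h2⟩ := hab
      subst h1 h2
      rfl

theorem Sur_bo_card {n m u : ℕ} (h : Slp M q K) (hE : Emp (fun _ : Fin n => m) (Fb q K (3 * u)))
    (hc : n * (m + 1).choose 2 = M * (u + 1).choose 2) :
    Sur (fun _ : Fin n => m) (Bo M K (3 * u)) := by
  obtain ⟨T, hT1, hT2⟩ := card_bo h u
  refine ⟨T, hT1, ?_, (Emp_bo h hE).mono hT1⟩
  rw [hT2, ← hc]
  simp [Pool.Agent.TH603.Sur.cond]

/-- three sectors, independence, from the open block -/
theorem Sur_TZ3' {q : ℕ} {K : ℝ} {d : ℕ} {ι : Type} [Fintype ι] {w : ι → ℕ} (h : Slp 3 q K) (h6 : K < 6)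
    (hB : Sur w (Bo 3 K d)) : Sur (Sum.elim (Sum.elim w w) w) (TZ d) := by
  have hK3 : (3 : ℝ) < K := by have := h.hMK; push_cast at this; exact this
  obtain ⟨τ, hτ⟩ : ∃ τ : ℝ, τ = K / 3 - 1 := ⟨_, rfl⟩
  have hτ0 : 0 < τ := by linarith
  have hτ1 : τ < 1 := by linarith
  have hK : K = 3 + 3 * τ := by linarith
  have hsec : ∀ i : ℕ, Sur w {p : ℤ × ℤ | 0 ≤ p.2 ∧
      ((i : ℝ) - 1 - τ) * ((d : ℝ) - 3 * p.2) < p.1 ∧ (p.1 : ℝ) < ((i : ℝ) - τ) * ((d : ℝ) - 3 * p.2)} := by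
    intro i
    refine hB.comap (-1) (-(3 * (i : ℤ))) 0 1 (i * d) 0 (by norm_num) ?_
    rintro ⟨t, y⟩ ⟨g1, g2, g3⟩
    simp only at g1 g2 g3
    rw [hK] at g2 g3
    push_cast at g2 g3
    refine ⟨(i * d - 3 * i * y - t, y), ⟨g1, ?_, ?_⟩, ?_⟩
    · simp only
      push_cast
      linarith
    · simp only
      push_cast
      linarith
    · ext
      · simp only; ring
      · simp only; ring
  refine keyS _ _ d τ hτ0 hτ1 ?_ ?_
  · have := (h.irr.div_natCast (m := 3) (by norm_num)).sub_natCast 1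
    rw [hτ]
    simpa using this
  have hpos : ∀ p : ℤ × ℤ, ∀ a : ℝ, (a - 1 - τ) * ((d : ℝ) - 3 * p.2) < p.1 →
      (p.1 : ℝ) < (a - τ) * ((d : ℝ) - 3 * p.2) → (0 : ℝ) < (d : ℝ) - 3 * p.2 := by
    intro p a h1 h2
    linarith
  have key := cut_S (ρ := -3 * (1 - τ)) ?_ (cut_S (ρ := 3 * τ) ?_ (hsec 0) (hsec 1)) (hsec 2)
  · refine key.mono ?_
    rintro ⟨x, y⟩ ((⟨g1, g2, g3⟩ | ⟨g1, g2, g3⟩) | ⟨g1, g2, g3⟩)
    · have h0 := hpos _ _ g2 g3
      simp only at g1 g2 g3 h0
      push_cast at g2 g3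
      refine ⟨g1, ?_, ?_⟩
      · simp only; linarith
      · simp only; linarith
    · have h0 := hpos _ _ g2 g3
      simp only at g1 g2 g3 h0
      push_cast at g2 g3
      refine ⟨g1, ?_, ?_⟩
      · simp only; linarith
      · simp only; linarith
    · have h0 := hpos _ _ g2 g3
      simp only at g1 g2 g3 h0
      push_cast at g2 g3
      refine ⟨g1, ?_, ?_⟩
      · simp only; linarith
      · simp only; linarith
  · rintro p (⟨g1, g2, g3⟩ | ⟨g1, g2, g3⟩) p' ⟨g1', g2', g3'⟩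
    · have h0 := hpos _ _ g2 g3
      push_cast at g3 g2'
      linarith
    · push_cast at g3 g2'
      linarith
  · rintro p ⟨g1, g2, g3⟩ p' ⟨g1', g2', g3'⟩
    push_cast at g3 g2'
    linarith

/-- one sector, independence, from the block -/
theorem Sur_TZ9' {q : ℕ} {K : ℝ} {d : ℕ} {ι : Type} [Fintype ι] {w : ι → ℕ} (h : Slp 9 q K) (h12 : K < 12)
    (hB : Sur w (Blk 9 K d)) : Sur w (TZ d) := by
  have hK9 : (9 : ℝ) < K := by have := h.hMK; push_cast at this; exact this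
  refine keyS ι w d (K / 3 - 3) (by linarith) (by linarith) ?_ ?_
  · have := (h.irr.div_natCast (m := 3) (by norm_num)).sub_natCast 3
    simpa using this
  refine hB.comap (-1) (-6) 0 1 (2 * d) 0 (by norm_num) ?_
  rintro ⟨t, j⟩ hp
  refine ⟨(2 * (d : ℤ) - t - 6 * j, j), blk_reg.1 hp, ?_⟩
  ext
  · simp only; ring
  · simp only; ring


end Pool.Agent.Q195.WN
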