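import Pool.Agent.Q195.WN.Core

/-! From the block to the plane. -/

namespace Pool.Agent.Q195.WN

open Finset Pool.Agent.TH176.Nag Pool.Agent.TH603.Sur Pool.Agent.TH603.Cut Pool.Agent.TH641.NW
  Pool.Agent.H932R3 Pool.Agent.TH469.SX
open Pool.Agent.TH864.SX (Fb Fa Slp Blk blk_reg)

/-- three sectors, emptiness, from the block -/
theorem Emp_TZ3' {q : ℕ} {K : ℝ} {d : ℕ} {ι : Type} [Finite ι] {w : ι → ℕ} (h : Slp 3 q K) (h6 : K < 6)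
    (hB : Emp w (Blk 3 K d)) : Emp (Sum.elim (Sum.elim w w) w) (TZ d) := by
  have hK3 : (3 : ℝ) < K := by have := h.hMK; push_cast at this; exact this
  obtain ⟨τ, hτ⟩ : ∃ τ : ℝ, τ = K / 3 - 1 := ⟨_, rfl⟩
  have hτ0 : 0 < τ := by linarith
  have hτ1 : τ < 1 := by linarith
  have hK : K = 3 + 3 * τ := by linarith
  have hsec : ∀ i : ℕ, Emp w {p : ℤ × ℤ | 0 ≤ p.2 ∧
      ((i : ℝ) - 1 - τ) * ((d : ℝ) - 3 * p.2) ≤ p.1 ∧ (p.1 : ℝ) ≤ ((i : ℝ) - τ) * ((d : ℝ) - 3 * p.2)} := by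
    intro i
    refine hB.comap (-1) (-(3 * (i : ℤ))) 0 1 (i * d) 0 (by norm_num) ?_
    rintro ⟨x, y⟩ ⟨g1, g2, g3⟩
    simp only at g1 g2 g3
    refine ⟨by simp only; omega, ?_, ?_⟩
    · simp only
      rw [hK]
      push_cast
      linarith
    · simp only
      rw [hK]
      push_cast
      linarith
  refine keyE _ _ d τ hτ0 hτ1 ?_
  have hfin := Reg_finite (α := -((d : ℝ) * (1 + τ))) (β := d * (2 - τ))
    (μ := 3 * (1 + τ)) (ν := 3 * (2 - τ)) (by linarith)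
  set R := Reg (-((d : ℝ) * (1 + τ))) (d * (2 - τ)) (3 * (1 + τ)) (3 * (2 - τ)) with hR
  have hpos : ∀ p ∈ R, (0 : ℝ) ≤ (d : ℝ) - 3 * p.2 := by
    rintro ⟨x, y⟩ ⟨g1, g2, g3⟩
    simp only at g1 g2 g3 ⊢
    nlinarith
  have hcov : R ⊆ ({p | p ∈ R ∧ (p.1 : ℝ) ≤ -τ * ((d : ℝ) - 3 * p.2)} ∪
      {p | p ∈ R ∧ -τ * ((d : ℝ) - 3 * p.2) < p.1 ∧ (p.1 : ℝ) ≤ (1 - τ) * ((d : ℝ) - 3 * p.2)}) ∪
      {p | p ∈ R ∧ (1 - τ) * ((d : ℝ) - 3 * p.2) < p.1} := by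
    intro p hp
    rcases le_or_gt (p.1 : ℝ) (-τ * ((d : ℝ) - 3 * p.2)) with h1 | h1
    · exact Or.inl (Or.inl ⟨hp, h1⟩)
    · rcases le_or_gt (p.1 : ℝ) ((1 - τ) * ((d : ℝ) - 3 * p.2)) with h2 | h2
      · exact Or.inl (Or.inr ⟨hp, h1, h2⟩)
      · exact Or.inr ⟨hp, h2⟩
  refine Emp.mono ?_ hcov
  refine cut_E (ρ := -3 * (1 - τ)) (hfin.subset ?_) (hfin.subset fun p hp => hp.1) ?_
    (cut_E (ρ := 3 * τ) (hfin.subset fun p hp => hp.1) (hfin.subset fun p hp => hp.1) ?_ ?_ ?_) ?_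
  · rintro p (hp | hp)
    · exact hp.1
    · exact hp.1
  · rintro p (⟨hp, h1⟩ | ⟨hp, h1, h2⟩) p' ⟨hp', h3⟩
    · have := hpos p hp
      nlinarith
    · linarith
  · rintro p ⟨hp, h1⟩ p' ⟨hp', h2, h3⟩
    linarith
  · refine (hsec 0).mono ?_
    rintro ⟨x, y⟩ ⟨⟨g1, g2, g3⟩, h1⟩
    simp only at g1 g2 g3 h1
    refine ⟨g1, ?_, ?_⟩
    · simp only; push_cast; linarith
    · simp only; push_cast; linarith
  · refine (hsec 1).mono ?_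
    rintro ⟨x, y⟩ ⟨⟨g1, g2, g3⟩, h1, h2⟩
    simp only at g1 g2 g3 h1 h2
    refine ⟨g1, ?_, ?_⟩
    · simp only; push_cast; linarith
    · simp only; push_cast; linarith
  · refine (hsec 2).mono ?_
    rintro ⟨x, y⟩ ⟨⟨g1, g2, g3⟩, h1⟩
    simp only at g1 g2 g3 h1
    refine ⟨g1, ?_, ?_⟩
    · simp only; push_cast; linarith
    · simp only; push_cast; linarith

/-- one sector, emptiness, from the block -/
theorem Emp_TZ9' {q : ℕ} {K : ℝ} {d : ℕ} {ι : Type} {w : ι → ℕ} (h : Slp 9 q K) (h12 : K < 12)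
    (hB : Emp w (Blk 9 K d)) :
    Emp w (TZ d) := by
  have hK9 : (9 : ℝ) < K := by have := h.hMK; push_cast at this; exact this
  refine keyE ι w d (K / 3 - 3) (by linarith) (by linarith) ?_
  refine hB.comap (-1) (-6) 0 1 (2 * d) 0 (by norm_num) ?_
  rintro ⟨i, j⟩ hp
  simp only
  have e : ((-1 * i + -6 * j + 2 * (d : ℤ), 0 * i + 1 * j + 0) : ℤ × ℤ) =
      (2 * (d : ℤ) - i - 6 * j, j) := by
    ext
    · simp only; ring
    · simp only; ring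
  rw [e, blk_reg]
  have e2 : ((2 * (d : ℤ) - (2 * (d : ℤ) - i - 6 * j) - 6 * j, j) : ℤ × ℤ) = (i, j) := by
    ext
    · simp only; ring
    · rfl
  rw [e2]
  exact hp


end Pool.Agent.Q195.WN
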