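import Pool.Agent.Q195.WN.Init
import Pool.Agent.Q195.WN.Hyp

/-! The first degeneration: the last point goes to the line `x = 0`. -/

namespace Pool.Agent.Q195.WN

open Finset Polynomial Pool.Agent.TH176.Nag

/-- the numbers -/
structure Nm (M h m b j : ℕ) (K δ : ℝ) : Prop where
  hM : 0 < M
  hMK : (M : ℝ) < K
  hKM : K < M + 1
  eq : 2 * (K * (K - M)) = M
  irr : Irrational K
  hδ : K * h = (K + 1) * m + δ
  δ0 : 0 ≤ δ
  δ1 : δ < 1 / 2
  hb : h = b + m
  j1 : 1 ≤ j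
  jb : j ≤ b
  jm : 2 * j < m
  hj : δ < (2 * (M + 1 - K) - 1) * j
  hjK : (j : ℝ) + δ < K

/-- the points of the block -/
def Bk (M h : ℕ) (K : ℝ) (p : ℕ × ℕ) : Prop :=
  p = (0, 0) ∨ (1 ≤ p.1 ∧ (K - M) * p.2 ≤ p.1 ∧ (p.1 : ℝ) ≤ K * p.2 ∧ p.2 ≤ h)

/-- an array over `ℚ[X]` with multiplicity `m` at `(1, X)` and vanishing conditions on columns -/
structure GG (M h m : ℕ) (K : ℝ) (S : Finset (ℕ × ℕ)) (G : ℕ × ℕ → ℚ[X]) : Prop where
  ne : ∃ p ∈ S, G p ≠ 0
  bk : ∀ p ∈ S, G p ≠ 0 → Bk M h K p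
  mf : ∀ R ∈ PF ℚ m, ∑ p ∈ S, R ((p.1 : ℚ), (p.2 : ℚ)) • (G p * X ^ p.2) = 0
  cv : ∀ k < m, ∀ t : ℕ, K * ((h : ℝ) - k) - (M + 1) * ((m : ℝ) - k) < t →
    ∀ Q : ℚ[X], Q.natDegree < k + 1 →
      ∑ p ∈ S.filter (fun p => p.1 = t), Q.eval (p.2 : ℚ) • G p = 0

theorem GG.cvl {M h m : ℕ} {K : ℝ} {S : Finset (ℕ × ℕ)} {G : ℕ × ℕ → ℚ[X]} (hG : GG M h m K S G)
    {k : ℕ} (hk : k < m) {t : ℕ} (ht : K * ((h : ℝ) - k) - (M + 1) * ((m : ℝ) - k) < t)
    (φ : ℚ[X] →ₗ[ℚ] ℚ) : Cv (k + 1) S (fun p => φ (G p)) t := by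
  intro Q hQ
  have h1 := congrArg φ (hG.cv k hk t ht Q hQ)
  rw [map_sum, map_zero] at h1
  rw [← h1]
  exact sum_congr rfl fun p _ => by rw [map_smul, smul_eq_mul]

theorem step1 {M h m : ℕ} {K : ℝ} (hK0 : 0 < K) (hKn : K < M + 1) {S : Finset (ℕ × ℕ)}
    {g : ℕ × ℕ → ℚ[X][X]} (hne : ∃ p ∈ S, g p ≠ 0) (hbk : ∀ p ∈ S, g p ≠ 0 → Bk M h K p)
    (hi : ∀ i < M + 1, ∀ R ∈ PF ℚ m,
      ∑ p ∈ S, (R ((p.1 : ℚ), (p.2 : ℚ)) * ((i : ℚ) + 1) ^ p.1) • g p = 0)
    (h0 : ∀ R ∈ PF ℚ m,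
      ∑ p ∈ S, R ((p.1 : ℚ), (p.2 : ℚ)) • (g p * X ^ p.1 * (C X) ^ p.2) = 0) :
    ∃ G, GG M h m K S G := by
  classical
  have hex : ∃ τ, ∃ p ∈ S, ∃ n, (g p).coeff n ≠ 0 ∧ n + p.1 = τ := by
    obtain ⟨p, hp, hgp⟩ := hne
    exact ⟨(g p).natDegree + p.1, p, hp, (g p).natDegree, by
      rw [coeff_natDegree]; exact leadingCoeff_ne_zero.2 hgp, rfl⟩
  obtain ⟨τ, hτ⟩ : ∃ τ, τ = Nat.find hex := ⟨_, rfl⟩
  have hspec := Nat.find_spec hex
  rw [← hτ] at hspec
  have hmin : ∀ p ∈ S, ∀ n, n + p.1 < τ → (g p).coeff n = 0 := by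
    intro p hp n hn
    rw [hτ] at hn
    by_contra hcon
    exact Nat.find_min hex hn ⟨p, hp, n, hcon, rfl⟩
  refine ⟨fun p => if p.1 ≤ τ then (g p).coeff (τ - p.1) else 0, ?_, ?_, ?_, ?_⟩
  · obtain ⟨p, hp, n, hn, hnp⟩ := hspec
    refine ⟨p, hp, ?_⟩
    rw [if_pos (by omega)]
    have : τ - p.1 = n := by omega
    rw [this]
    exact hn
  · intro p hp hGp
    refine hbk p hp ?_
    intro hcon
    apply hGp
    rw [hcon]
    simp
  · intro R hR
    have h1 := congrArg (fun q => coeff q τ) (h0 R hR)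
    simp only [finsetSum_coeff, coeff_smul, coeff_zero] at h1
    refine Eq.trans (sum_congr rfl fun p _ => ?_) h1
    rw [← C_pow, coeff_mul_C, coeff_mul_X_pow']
  · intro k hk t ht Q hQ
    rcases le_or_gt t τ with htτ | htτ
    · ext c
      rw [coeff_zero, finsetSum_coeff]
      have h1 := init (n := M + 1) (h := h) (m := m) (K := K) hK0 (by push_cast; exact hKn)
        (S := S) (a := fun p => ((g p).coeff (τ - t)).coeff c) ?_ ?_ (t' := t) ?_ hk
        (by push_cast; exact ht) t Q hQ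
      · rw [← h1]
        refine sum_congr rfl fun p hp => ?_
        rw [mem_filter] at hp
        rw [if_pos (by omega), hp.2, coeff_smul, smul_eq_mul]
      · intro p hp hap
        have : g p ≠ 0 := by
          intro hcon
          apply hap
          rw [hcon]
          simp
        rcases hbk p hp this with h2 | ⟨_, _, h2, h3⟩
        · rw [h2]; simp
        · exact ⟨h2, h3⟩
      · intro i hi' R hR
        have h2 := congrArg (fun q => (coeff q (τ - t)).coeff c) (hi i hi' R hR)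
        simp only [finsetSum_coeff, coeff_smul, coeff_zero] at h2
        rw [← h2]
        refine sum_congr rfl fun p _ => ?_
        rw [smul_eq_mul]
        ring
      · intro p hp hpt
        rw [hmin p hp (τ - t) (by omega), coeff_zero]
    · refine sum_eq_zero fun p hp => ?_
      rw [mem_filter] at hp
      rw [if_neg (by omega), smul_zero]

/-- the columns beyond `m` vanish -/
theorem GG.le_m {M h m b j : ℕ} {K δ : ℝ} (hN : Nm M h m b j K δ) {S : Finset (ℕ × ℕ)}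
    {G : ℕ × ℕ → ℚ[X]} (hG : GG M h m K S G) : ∀ p ∈ S, G p ≠ 0 → p.1 ≤ m := by
  intro p hp hGp
  by_contra hcon
  push Not at hcon
  have hK0 : 0 < K := lt_of_le_of_lt (Nat.cast_nonneg M) hN.hMK
  have hm : 0 < m := by have := hN.jm; omega
  have hbR : (h : ℝ) = b + m := by
    have := hN.hb
    exact_mod_cast this
  have hKb : K * b = m + δ := by
    have := hN.hδ
    rw [hbR] at this
    linarith
  have hcR : (m : ℝ) + 1 ≤ p.1 := by exact_mod_cast hcon
  obtain ⟨n, hn⟩ : ∃ n, (G p).coeff n ≠ 0 :=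
    ⟨(G p).natDegree, by rw [coeff_natDegree]; exact leadingCoeff_ne_zero.2 hGp⟩
  have h1 := hG.cvl (k := m - 1) (by omega) (t := p.1) ?_ (Polynomial.lcoeff ℚ n)
  · rw [Nat.sub_add_cancel hm] at h1
    have h2 := h1.zero (lo := b + 1) ?_ p hp rfl
    · exact hn h2
    · intro q hq hqp haq
      have hGq : G q ≠ 0 := by
        intro hc
        apply haq
        rw [hc]
        simp
      rcases hG.bk q hq hGq with h3 | ⟨_, _, h3, h4⟩
      · rw [h3] at hqp
        simp only at hqp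
        omega
      · have h5 : K * b < K * q.2 := by
          have h6 : ((q.1 : ℕ) : ℝ) = p.1 := by exact_mod_cast hqp
          rw [hKb]
          have := hN.δ1
          linarith
        have h7 : (b : ℝ) < q.2 := lt_of_mul_lt_mul_left h5 hK0.le
        have h8 : b < q.2 := by exact_mod_cast h7
        have := hN.hb
        omega
  · rw [Nat.cast_sub hm, hbR]
    have := hN.δ1
    have := hN.hKM
    push_cast
    nlinarith

end Pool.Agent.Q195.WN
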