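import Pool.Agent.Q195.WN.Red1

/-! The second degeneration, first case: the point `(1, X)` goes to infinity. -/

namespace Pool.Agent.Q195.WN

open Finset Polynomial Pool.Agent.TH176.Nag

/-- the product over the middle columns -/
noncomputable def om (j m : ℕ) (t : ℚ) : ℚ := ∏ c ∈ Finset.Ioo (j : ℤ) ((m : ℤ) - j), (t - (c : ℚ))

theorem om_ne {j m t : ℕ} : om j m t ≠ 0 ↔ (t ≤ j ∨ m ≤ t + j) := by
  unfold om
  rw [prod_ne_zero_iff]
  constructor
  · intro h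
    by_contra hcon
    push Not at hcon
    have := h (t : ℤ) (mem_Ioo.2 ⟨by omega, by omega⟩)
    apply this
    push_cast
    ring
  · intro h c hc hcon
    rw [mem_Ioo] at hc
    rw [sub_eq_zero] at hcon
    have : (t : ℤ) = c := by exact_mod_cast hcon
    omega

theorem PF_om {j m : ℕ} (hjm : 2 * j < m) {R : ℚ × ℚ → ℚ} (hR : R ∈ PF ℚ (2 * j + 1)) :
    (fun u => om j m u.1 * R u) ∈ PF ℚ m := by
  have h1 := PF_prod hR (Finset.Ioo (j : ℤ) ((m : ℤ) - j)) 0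
  rw [Int.card_Ioo] at h1
  have h2 := PF_mono (show 2 * j + 1 + ((m : ℤ) - j - j - 1).toNat ≤ m by omega) h1
  have e : (fun u : ℚ × ℚ => om j m u.1 * R u) = (fun u : ℚ × ℚ =>
      (∏ c ∈ Finset.Ioo (j : ℤ) ((m : ℤ) - j), (u.1 - 0 * u.2 - (c : ℚ))) * R u) := by
    funext u
    simp [om]
  rw [e]
  exact h2

theorem card_col (B : Finset (ℕ × ℕ)) (x : ℤ) (lo n : ℕ)
    (h : ∀ p ∈ B, (p.1 : ℤ) - 0 * p.2 = x → lo ≤ p.2 ∧ p.2 < lo + n) :
    (B.filter (fun p => (p.1 : ℤ) - 0 * p.2 = x)).card ≤ n := by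
  classical
  have h1 : (B.filter (fun p => (p.1 : ℤ) - 0 * p.2 = x)).card =
      ((B.filter (fun p => (p.1 : ℤ) - 0 * p.2 = x)).image Prod.snd).card := by
    rw [card_image_of_injOn]
    intro p hp q hq hpq
    rw [mem_coe, mem_filter] at hp hq
    refine Prod.ext ?_ hpq
    have h3 := hp.2
    have h4 := hq.2
    omega
  rw [h1]
  refine (card_le_card (t := Ico lo (lo + n)) ?_).trans (by simp)
  intro u hu
  obtain ⟨q, hq, rfl⟩ := mem_image.1 hu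
  rw [mem_filter] at hq
  exact mem_Ico.2 (h q hq.1 hq.2)

theorem countD {j m b : ℕ} (c : ℕ → ℕ) (hjm : 2 * j < m) {B : Finset (ℕ × ℕ)}
    (hB : ∀ p ∈ B, (1 ≤ p.1 ∧ p.1 ≤ j ∧ c p.1 ≤ p.2 ∧ p.2 < c p.1 + 2 * p.1) ∨
      (m ≤ p.1 + j ∧ p.1 ≤ m ∧ b + m ≤ p.2 + 2 * (m - p.1) ∧ p.2 ≤ b + m))
    (l : ℕ) (hl : l ≤ 2 * j + 1) (C : Finset ℤ)
    (hC : ∀ x ∈ C, l + 1 ≤ (B.filter (fun p => (p.1 : ℤ) - 0 * p.2 = x)).card) :
    C.card + l ≤ 2 * j + 1 := by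
  classical
  have hsub : C ⊆ (Icc (l / 2 + 1) j).image (fun i : ℕ => (i : ℤ)) ∪
      (Icc ((l + 1) / 2) j).image (fun i : ℕ => (m : ℤ) - i) := by
    intro x hx
    have h1 := hC x hx
    obtain ⟨p, hp⟩ := card_pos.1 (show 0 < (B.filter (fun p => (p.1 : ℤ) - 0 * p.2 = x)).card by omega)
    rw [mem_filter] at hp
    obtain ⟨hp1, hp2⟩ := hp
    have hx1 : x = p.1 := by omega
    rw [mem_union]
    rcases hB p hp1 with ⟨g1, g2, g3, g4⟩ | ⟨g1, g2, g3, g4⟩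
    · left
      refine mem_image.2 ⟨p.1, mem_Icc.2 ⟨?_, g2⟩, hx1.symm⟩
      have h2 := card_col B x (c p.1) (2 * p.1) ?_
      · omega
      · intro q hq hqx
        have hqp : q.1 = p.1 := by omega
        rcases hB q hq with ⟨_, _, k3, k4⟩ | ⟨k1, _, _, _⟩
        · rw [hqp] at k3 k4
          exact ⟨k3, k4⟩
        · omega
    · right
      refine mem_image.2 ⟨m - p.1, mem_Icc.2 ⟨?_, by omega⟩, by omega⟩
      have h2 := card_col B x (b + m - 2 * (m - p.1)) (2 * (m - p.1) + 1) ?_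
      · omega
      · intro q hq hqx
        have hqp : q.1 = p.1 := by omega
        rcases hB q hq with ⟨_, k2, _, _⟩ | ⟨_, _, k3, k4⟩
        · omega
        · rw [hqp] at k3
          omega
  have h1 := card_le_card hsub
  have h2 := card_union_le ((Icc (l / 2 + 1) j).image (fun i : ℕ => (i : ℤ)))
    ((Icc ((l + 1) / 2) j).image (fun i : ℕ => (m : ℤ) - i))
  have h3 := card_image_le (s := Icc (l / 2 + 1) j) (f := fun i : ℕ => (i : ℤ))
  have h4 := card_image_le (s := Icc ((l + 1) / 2) j) (f := fun i : ℕ => (m : ℤ) - i)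
  rw [Nat.card_Icc] at h3 h4
  omega

theorem Nm.K0 {M h m b j : ℕ} {K δ : ℝ} (hN : Nm M h m b j K δ) : 0 < K :=
  lt_of_le_of_lt (Nat.cast_nonneg M) hN.hMK

theorem Nm.half {M h m b j : ℕ} {K δ : ℝ} (hN : Nm M h m b j K δ) : K - M < 1 / 2 := by
  have h1 := hN.eq
  have h2 := hN.hMK
  have h3 := hN.K0
  by_contra hcon
  push Not at hcon
  have := mul_le_mul_of_nonneg_left hcon h3.le
  linarith

theorem Nm.Kb {M h m b j : ℕ} {K δ : ℝ} (hN : Nm M h m b j K δ) : K * b = m + δ := by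
  have hbR : (h : ℝ) = b + m := by
    have := hN.hb
    exact_mod_cast this
  have := hN.hδ
  rw [hbR] at this
  linarith

theorem Nm.K1 {M h m b j : ℕ} {K δ : ℝ} (hN : Nm M h m b j K δ) : 1 < K := by
  have h1 := hN.hMK
  have h2 : (1 : ℝ) ≤ M := by exact_mod_cast hN.hM
  linarith

theorem Nm.bm {M h m b j : ℕ} {K δ : ℝ} (hN : Nm M h m b j K δ) : b ≤ m := by
  have h1 := hN.Kb
  have h2 := hN.K1
  have h3 := hN.δ1
  have h4 : (b : ℝ) < m + 1 := by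
    have : (0 : ℝ) ≤ b := Nat.cast_nonneg b
    nlinarith
  have : b < m + 1 := by exact_mod_cast h4
  omega

theorem Nm.col {M h m b j : ℕ} {K δ : ℝ} (hN : Nm M h m b j K δ) {p : ℕ × ℕ} (h1 : 1 ≤ p.1)
    (h2 : (K - M) * p.2 ≤ p.1) (h3 : (p.1 : ℝ) ≤ K * p.2) :
    ⌈(p.1 : ℝ) / K⌉₊ ≤ p.2 ∧ p.2 < ⌈(p.1 : ℝ) / K⌉₊ + 2 * p.1 := by
  have hK0 := hN.K0
  have hKM : 0 < K - M := by linarith [hN.hMK]
  refine ⟨?_, ?_⟩
  · rw [Nat.ceil_le, div_le_iff₀ hK0]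
    linarith
  · by_contra hcon
    push Not at hcon
    have h4 : (p.1 : ℝ) / K + 2 * p.1 ≤ p.2 := by
      have h5 : ((⌈(p.1 : ℝ) / K⌉₊ + 2 * p.1 : ℕ) : ℝ) ≤ p.2 := by exact_mod_cast hcon
      have h6 := Nat.le_ceil ((p.1 : ℝ) / K)
      push_cast at h5
      linarith
    have h5 : (K - M) * ((p.1 : ℝ) / K + 2 * p.1) = p.1 := by
      have e1 : (K - M) * (1 + 2 * K) = K := by linarith [hN.eq]
      have e2 : (K - M) * ((p.1 : ℝ) / K + 2 * p.1) = ((K - M) * (1 + 2 * K)) * p.1 / K := by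
        field_simp
      rw [e2, e1]
      field_simp
    have h6 := mul_le_mul_of_nonneg_left h4 hKM.le
    rw [h5] at h6
    have h7 : (K - M) * (p.2 : ℝ) = p.1 := le_antisymm h2 h6
    have hp2 : (p.2 : ℝ) ≠ 0 := by
      intro h8
      rw [h8, mul_zero] at h7
      have : (1 : ℝ) ≤ p.1 := by exact_mod_cast h1
      linarith
    apply hN.irr
    refine ⟨(M : ℚ) + (p.1 : ℚ) / (p.2 : ℚ), ?_⟩
    push_cast
    rw [← h7]
    field_simp
    ring

end Pool.Agent.Q195.WN
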