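import Pool.Agent.Q195.WN.Red2

/-! The second degeneration, first case. -/

namespace Pool.Agent.Q195.WN

open Finset Polynomial Pool.Agent.TH176.Nag

variable {M h m b j : ℕ} {K δ : ℝ}

theorem hc_supp {A B : ℕ} {p : ℕ × ℕ} (h : hc A B p ≠ 0) :
    p.1 ≤ p.2 ∧ p.2 ≤ 2 * p.1 ∧ 2 * p.1 - p.2 ≤ A ∧ p.2 - p.1 ≤ B := by
  unfold hc at h
  split_ifs at h with h1
  · refine ⟨h1.1, h1.2, ?_, ?_⟩
    · by_contra hcon
      push Not at hcon
      rw [Nat.choose_eq_zero_of_lt hcon] at h
      simp at h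
    · by_contra hcon
      push Not at hcon
      rw [Nat.choose_eq_zero_of_lt hcon] at h
      simp at h
  · exact absurd rfl h

theorem stepD (hN : Nm M h m b j K δ) {S : Finset (ℕ × ℕ)} {G : ℕ × ℕ → ℚ[X]}
    (hG : GG M h m K S G) (hS : ∀ i ≤ m - b, ∀ j' ≤ b, (i + j', i + 2 * j') ∈ S)
    (hne : ∃ p ∈ S, G p ≠ 0 ∧ om j m p.1 ≠ 0) : False := by
  classical
  have hK0 := hN.K0
  have hK1 := hN.K1
  have hhalf := hN.half
  have hKb := hN.Kb
  have hbm := hN.bm
  have hj1 := hN.j1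
  have hjb := hN.jb
  have hjm := hN.jm
  have hb := hN.hb
  have hδ0 := hN.δ0
  have hδ1 := hN.δ1
  -- the maximal degree
  obtain ⟨p0, hp0, hmax⟩ := exists_max_image (S.filter (fun p => G p ≠ 0 ∧ om j m p.1 ≠ 0))
    (fun p => (G p).natDegree + p.2) (by
      obtain ⟨p, hp, h1⟩ := hne
      exact ⟨p, mem_filter.2 ⟨hp, h1⟩⟩)
  rw [mem_filter] at hp0
  obtain ⟨hp0S, hGp0, hom0⟩ := hp0
  obtain ⟨τ, hτ⟩ : ∃ τ, τ = (G p0).natDegree + p0.2 := ⟨_, rfl⟩
  have hmax' : ∀ p ∈ S, om j m p.1 ≠ 0 → ∀ n, (G p).coeff n ≠ 0 → n + p.2 ≤ τ := by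
    intro p hp hom n hn
    have hGp : G p ≠ 0 := by
      intro hcon
      rw [hcon] at hn
      exact hn (coeff_zero n)
    have h1 := hmax p (mem_filter.2 ⟨hp, hGp, hom⟩)
    have h2 := le_natDegree_of_ne_zero hn
    omega
  obtain ⟨H, hH⟩ : ∃ H : ℕ × ℕ → ℚ, H = fun p =>
    om j m p.1 * (if p.2 ≤ τ then (G p).coeff (τ - p.2) else 0) := ⟨_, rfl⟩
  have hHp0 : H p0 ≠ 0 := by
    rw [hH]
    simp only
    rw [if_pos (by omega)]
    have : τ - p0.2 = (G p0).natDegree := by omega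
    rw [this, coeff_natDegree]
    exact mul_ne_zero hom0 (leadingCoeff_ne_zero.2 hGp0)
  have hsup : ∀ p ∈ S, H p ≠ 0 → om j m p.1 ≠ 0 ∧ p.2 ≤ τ ∧ (G p).coeff (τ - p.2) ≠ 0 ∧
      G p ≠ 0 := by
    intro p hp hHp
    rw [hH] at hHp
    simp only at hHp
    have h1 := left_ne_zero_of_mul hHp
    have h2 := right_ne_zero_of_mul hHp
    split_ifs at h2 with h3
    · refine ⟨h1, h3, h2, ?_⟩
      intro hcon
      rw [hcon] at h2
      exact h2 (coeff_zero _)
    · exact absurd rfl h2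
  have hHmf : Mf (2 * j + 1) S H := by
    intro R hR
    have h1 := congrArg (fun q => coeff q τ) (hG.mf _ (PF_om hjm hR))
    simp only [finsetSum_coeff, coeff_smul, coeff_zero, coeff_mul_X_pow'] at h1
    refine Eq.trans (sum_congr rfl fun p _ => ?_) h1
    rw [hH]
    simp only [smul_eq_mul]
    ring
  have hcmf : Mf (2 * j + 1) S (fun p => om j m p.1 * hc (m - b) b p) := by
    intro R hR
    have h1 := hc_mf hS
    rw [Nat.sub_add_cancel hbm] at h1
    have h2 := h1 _ (PF_om hjm hR)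
    refine Eq.trans (sum_congr rfl fun p _ => ?_) h2
    ring
  -- the lower bound in the last columns
  have hlow : ∀ p ∈ S, H p ≠ 0 → m ≤ p.1 + j → ∀ k < m,
      K * ((h : ℝ) - k) - (M + 1) * ((m : ℝ) - k) < (p.1 : ℕ) → b + k + 1 ≤ p.2 := by
    intro p hp hHp hpj k hk hD
    by_contra hcon
    obtain ⟨hom, h2, h3, h4⟩ := hsup p hp hHp
    have h5 := hG.cvl hk hD (Polynomial.lcoeff ℚ (τ - p.2))
    refine h3 (h5.zero (lo := b) ?_ p hp rfl)
    intro q hq hqp haq
    have haq' : (G q).coeff (τ - p.2) ≠ 0 := haq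
    have hom' : om j m q.1 ≠ 0 := by rw [hqp]; exact hom
    have h6 := hmax' q hq hom' _ haq'
    have hGq : G q ≠ 0 := by
      intro hc
      rw [hc] at haq'
      exact haq' (coeff_zero _)
    refine ⟨?_, by omega⟩
    rcases hG.bk q hq hGq with h7 | ⟨_, _, h7, _⟩
    · rw [h7] at hqp
      simp only at hqp
      omega
    · have h8 : (m : ℝ) ≤ q.1 + j := by
        have : m ≤ q.1 + j := by omega
        exact_mod_cast this
      have h9 : K * ((b : ℝ) - 1) < K * q.2 := by
        have := hN.hjK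
        linarith
      have h10 : (b : ℝ) - 1 < q.2 := lt_of_mul_lt_mul_left h9 hK0.le
      have h11 : (b : ℝ) < q.2 + 1 := by linarith
      have h12 : b < q.2 + 1 := by exact_mod_cast h11
      omega
  have hlow1 : ∀ p ∈ S, H p ≠ 0 → m ≤ p.1 + j → b + m ≤ p.2 + 2 * (m - p.1) ∧
      (p.1 + j = m → b + m + 1 ≤ p.2 + 2 * j) := by
    intro p hp hHp hpj
    have hpm := hG.le_m hN p hp (hsup p hp hHp).2.2.2
    have hhR : (h : ℝ) = b + m := by exact_mod_cast hb
    rcases hpj.lt_or_eq with h1 | h1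
    · refine ⟨?_, fun h2 => by omega⟩
      obtain ⟨i, hi⟩ : ∃ i, i = m - p.1 := ⟨_, rfl⟩
      have hiR : (p.1 : ℝ) = m - i := by
        have : p.1 + i = m := by omega
        have h3 : (p.1 : ℝ) + i = m := by exact_mod_cast this
        linarith
      have h2 := hlow p hp hHp hpj (m - 2 * i - 1) (by omega) ?_
      · omega
      · have h3 : ((m - 2 * i - 1 : ℕ) : ℝ) = m - 2 * i - 1 := by
          rw [Nat.sub_sub, Nat.cast_sub (by omega)]
          push_cast; ring
        rw [h3, hhR, hiR]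
        have h4 : (0 : ℝ) ≤ i := Nat.cast_nonneg i
        nlinarith
    · have h2 := hlow p hp hHp hpj (m - 2 * j) (by omega) ?_
      · exact ⟨by omega, fun _ => by omega⟩
      · have h3 : ((m - 2 * j : ℕ) : ℝ) = m - 2 * j := by
          rw [Nat.cast_sub (by omega)]
          push_cast; ring
        have h4 : (p.1 : ℝ) = m - j := by
          have h5 : (m : ℝ) = p.1 + j := by exact_mod_cast h1
          linarith
        rw [h3, hhR, h4]
        have := hN.hj
        linarith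
  -- subtract a multiple of the special array
  have hom00 : om j m ((0 : ℕ) : ℚ) ≠ 0 := om_ne.2 (Or.inl (Nat.zero_le _))
  obtain ⟨lam, hlam⟩ : ∃ lam : ℚ, lam = H (0, 0) / om j m ((0 : ℕ) : ℚ) := ⟨_, rfl⟩
  obtain ⟨H', hH'⟩ : ∃ H' : ℕ × ℕ → ℚ, H' = fun p =>
    H p - lam * (om j m p.1 * hc (m - b) b p) := ⟨_, rfl⟩
  have hH'mf : Mf (2 * j + 1) S H' := by
    intro R hR
    have h1 := hHmf R hR
    have h2 := hcmf R hR
    have e : ∑ p ∈ S, R ((p.1 : ℚ), (p.2 : ℚ)) * H' p =
        ∑ p ∈ S, R ((p.1 : ℚ), (p.2 : ℚ)) * H p -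
        lam * ∑ p ∈ S, R ((p.1 : ℚ), (p.2 : ℚ)) * (om j m p.1 * hc (m - b) b p) := by
      rw [mul_sum, ← sum_sub_distrib]
      refine sum_congr rfl fun p _ => ?_
      rw [hH']
      ring
    rw [e, h1, h2]
    ring
  have hH'00 : H' (0, 0) = 0 := by
    have h1 : hc (m - b) b (0, 0) = 1 := by simp [hc]
    rw [hH']
    simp only
    rw [h1, hlam]
    field_simp
    ring
  have hall : ∀ p ∈ S, H' p = 0 := by
    refine peel (B := S.filter (fun p => (1 ≤ p.1 ∧ p.1 ≤ j ∧ ⌈(p.1 : ℝ) / K⌉₊ ≤ p.2 ∧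
      p.2 < ⌈(p.1 : ℝ) / K⌉₊ + 2 * p.1) ∨
      (m ≤ p.1 + j ∧ p.1 ≤ m ∧ b + m ≤ p.2 + 2 * (m - p.1) ∧ p.2 ≤ b + m))) hH'mf 0 ?_ ?_
    · intro p hp hHp
      rw [mem_filter]
      refine ⟨hp, ?_⟩
      have hp00 : p ≠ (0, 0) := by
        intro hcon
        rw [hcon] at hHp
        exact hHp hH'00
      by_cases hHp' : H p = 0
      · -- the special array
        have h1 : om j m p.1 * hc (m - b) b p ≠ 0 := by
          intro hcon
          apply hHp
          rw [hH']
          simp only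
          rw [hHp', hcon]
          ring
        obtain ⟨g1, g2, g3, g4⟩ := hc_supp (right_ne_zero_of_mul h1)
        have h2 := om_ne.1 (left_ne_zero_of_mul h1)
        have hp1 : 1 ≤ p.1 := by
          by_contra hcon
          exact hp00 (Prod.ext (by simp only; omega) (by simp only; omega))
        have hp1R : (1 : ℝ) ≤ p.1 := by exact_mod_cast hp1
        rcases h2 with h2 | h2
        · left
          have h3 : ⌈(p.1 : ℝ) / K⌉₊ ≤ p.1 := by
            rw [Nat.ceil_le, div_le_iff₀ hK0]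
            nlinarith
          have h4 : 0 < ⌈(p.1 : ℝ) / K⌉₊ := by
            rw [Nat.ceil_pos]
            positivity
          exact ⟨hp1, h2, by omega, by omega⟩
        · right
          exact ⟨h2, by omega, by omega, by omega⟩
      · obtain ⟨k1, k2, k3, k4⟩ := hsup p hp hHp'
        rcases hG.bk p hp k4 with h1 | ⟨h1, h2, h3, h4⟩
        · exact absurd h1 hp00
        · rcases om_ne.1 k1 with h5 | h5
          · left
            obtain ⟨h6, h7⟩ := hN.col h1 h2 h3
            exact ⟨h1, h5, h6, h7⟩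
          · right
            exact ⟨h5, hG.le_m hN p hp k4, (hlow1 p hp hHp' h5).1, by omega⟩
    · intro l hl C hC
      refine countD (b := b) (fun t => ⌈(t : ℝ) / K⌉₊) hjm ?_ l hl C hC
      intro p hp
      exact (mem_filter.1 hp).2
  -- the last column
  have hstar : ((m - b) + (b - j), (m - b) + 2 * (b - j)) ∈ S := hS _ le_rfl _ (Nat.sub_le _ _)
  have e1 : (m - b) + (b - j) = m - j := by omega
  have e2 : (m - b) + 2 * (b - j) = b + m - 2 * j := by omega
  rw [e1, e2] at hstar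
  have hHs : H (m - j, b + m - 2 * j) = 0 := by
    by_contra hcon
    have h1 := (hlow1 _ hstar hcon (by simp only; omega)).2 (by simp only; omega)
    simp only at h1
    omega
  have hcs : hc (m - b) b (m - j, b + m - 2 * j) ≠ 0 := by
    unfold hc
    rw [if_pos ⟨by simp only; omega, by simp only; omega⟩]
    simp only
    have e3 : 2 * (m - j) - (b + m - 2 * j) = m - b := by omega
    have e4 : b + m - 2 * j - (m - j) = b - j := by omega
    rw [e3, e4, Nat.choose_self]
    have h1 : 0 < b.choose (b - j) := Nat.choose_pos (Nat.sub_le _ _)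
    have h2 : (b.choose (b - j) : ℚ) ≠ 0 := by exact_mod_cast h1.ne'
    have h3 : (-1 : ℚ) ^ (m - j) ≠ 0 := pow_ne_zero _ (by norm_num)
    simp only [Nat.cast_one, mul_one]
    exact mul_ne_zero h3 h2
  have homs : om j m ((m - j : ℕ) : ℚ) ≠ 0 := om_ne.2 (Or.inr (by omega))
  have hlam0 : lam = 0 := by
    have h1 := hall _ hstar
    rw [hH'] at h1
    simp only at h1
    rw [hHs, zero_sub, neg_eq_zero] at h1
    rcases mul_eq_zero.1 h1 with h2 | h2
    · exact h2
    · exact absurd h2 (mul_ne_zero homs hcs)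
  have h1 := hall p0 hp0S
  rw [hH'] at h1
  simp only at h1
  rw [hlam0, zero_mul, sub_zero] at h1
  exact hHp0 h1

end Pool.Agent.Q195.WN
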