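import Pool.Agent.Q195.WN.Red2

/-! The second degeneration, second case: the point `(1, X)` goes to the line `y = 1`. -/

namespace Pool.Agent.Q195.WN

open Finset Polynomial Pool.Agent.TH176.Nag

variable {M h m b j : ℕ} {K δ : ℝ}

theorem Mf_of_desc {m : ℕ} {S : Finset (ℕ × ℕ)} {a : ℕ × ℕ → ℚ}
    (h : ∀ c d : ℕ, c + d < m →
      ∑ p ∈ S, (p.1 : ℚ) ^ c * (p.2.descFactorial d : ℚ) * a p = 0) : Mf m S a := by
  let V : Submodule ℚ (ℚ × ℚ → ℚ) :=
    { carrier := {R | ∑ p ∈ S, R ((p.1 : ℚ), (p.2 : ℚ)) * a p = 0}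
      add_mem' := by
        intro x y hx hy
        simp only [Set.mem_ofPred_eq, Pi.add_apply, add_mul, sum_add_distrib] at hx hy ⊢
        rw [hx, hy, add_zero]
      zero_mem' := by simp
      smul_mem' := by
        intro c x hx
        simp only [Set.mem_ofPred_eq, Pi.smul_apply, smul_eq_mul, mul_assoc] at hx ⊢
        rw [← mul_sum, hx, mul_zero] }
  have h1 : PF ℚ m ≤ V := by
    apply PF_le_of_desc
    intro c d hcd
    have h2 := h c d hcd
    change ∑ p ∈ S, _ = 0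
    refine Eq.trans (sum_congr rfl fun p _ => ?_) h2
    simp only
    rw [desc_cast]
  intro R hR
  exact h1 hR

/-- the binomial polynomial -/
noncomputable def chP (k : ℕ) : ℚ[X] := C ((k.factorial : ℚ)⁻¹) * descPochhammer ℚ k

theorem chP_eval (k n : ℕ) : (chP k).eval (n : ℚ) = (n.choose k : ℚ) := by
  rw [Nat.cast_choose_eq_descPochhammer_div ℚ n k, chP, eval_mul, eval_C]
  field_simp

theorem chP_deg (k : ℕ) : (chP k).natDegree < k + 1 := by
  unfold chP
  refine lt_of_le_of_lt (natDegree_C_mul_le _ _) ?_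
  rw [descPochhammer_natDegree]
  omega

theorem chP_coeff (k : ℕ) : (chP k).coeff k = (k.factorial : ℚ)⁻¹ := by
  unfold chP
  rw [coeff_C_mul]
  have h1 := monic_descPochhammer ℚ k
  have h2 : (descPochhammer ℚ k).coeff k = 1 := by
    have h3 := h1.coeff_natDegree
    rw [descPochhammer_natDegree] at h3
    exact h3
  rw [h2, mul_one]

/-- one more order of vanishing from the binomial sum -/
theorem Cv.succ_of {k : ℕ} {S : Finset (ℕ × ℕ)} {a : ℕ × ℕ → ℚ} {t : ℕ} (h : Cv k S a t)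
    (h1 : ∑ p ∈ S.filter (fun p => p.1 = t), (p.2.choose k : ℚ) * a p = 0) : Cv (k + 1) S a t := by
  intro Q hQ
  obtain ⟨c, hc⟩ : ∃ c : ℚ, c = Q.coeff k * k.factorial := ⟨_, rfl⟩
  obtain ⟨Q', hQ'⟩ : ∃ Q' : ℚ[X], Q' = Q - C c * chP k := ⟨_, rfl⟩
  have hdeg : Q'.degree < k := by
    rw [degree_lt_iff_coeff_zero]
    intro n hn
    rw [hQ', coeff_sub, coeff_C_mul]
    rcases hn.lt_or_eq with h2 | h2
    · rw [coeff_eq_zero_of_natDegree_lt (show Q.natDegree < n by omega),
        coeff_eq_zero_of_natDegree_lt (show (chP k).natDegree < n by have := chP_deg k; omega)]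
      simp
    · rw [← h2, chP_coeff, hc]
      have : (k.factorial : ℚ) ≠ 0 := by exact_mod_cast k.factorial_ne_zero
      field_simp
      ring
  have h2 : ∑ p ∈ S.filter (fun p => p.1 = t), Q'.eval (p.2 : ℚ) * a p = 0 := by
    by_cases h3 : Q' = 0
    · rw [h3]; simp
    · exact h Q' ((natDegree_lt_iff_degree_lt h3).2 hdeg)
  have e : ∑ p ∈ S.filter (fun p => p.1 = t), Q.eval (p.2 : ℚ) * a p =
      ∑ p ∈ S.filter (fun p => p.1 = t), Q'.eval (p.2 : ℚ) * a p +
      c * ∑ p ∈ S.filter (fun p => p.1 = t), (p.2.choose k : ℚ) * a p := by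
    rw [mul_sum, ← sum_add_distrib]
    refine sum_congr rfl fun p _ => ?_
    rw [hQ', eval_sub, eval_mul, eval_C, chP_eval]
    ring
  rw [e, h1, h2]
  ring

theorem Cv.choose {k : ℕ} {S : Finset (ℕ × ℕ)} {a : ℕ × ℕ → ℚ} {t : ℕ} (h : Cv (k + 1) S a t) :
    ∑ p ∈ S.filter (fun p => p.1 = t), (p.2.choose k : ℚ) * a p = 0 := by
  rw [← h (chP k) (chP_deg k)]
  exact sum_congr rfl fun p _ => by rw [chP_eval]

theorem desc_choose (n b y : ℕ) :
    ((b + y).descFactorial b) * n.choose (b + y) = n.descFactorial b * (n - b).choose y := by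
  rw [Nat.descFactorial_eq_factorial_mul_choose, Nat.descFactorial_eq_factorial_mul_choose]
  have h1 := Nat.choose_mul (n := n) (k := b + y) (s := b) (by omega)
  rw [Nat.add_sub_cancel_left] at h1
  calc b.factorial * (b + y).choose b * n.choose (b + y)
      = b.factorial * (n.choose (b + y) * (b + y).choose b) := by ring
    _ = b.factorial * n.choose b * (n - b).choose y := by rw [h1]; ring

/-- the conditions after the substitution `X = 1 + z` -/
theorem taylor_cond {S : Finset (ℕ × ℕ)} {G : ℕ × ℕ → ℚ[X]}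
    (hmf : ∀ R ∈ PF ℚ m, ∑ p ∈ S, R ((p.1 : ℚ), (p.2 : ℚ)) • (G p * X ^ p.2) = 0)
    {c d : ℕ} (hcd : c + d < m) (n : ℕ) :
    ∑ p ∈ S, ((p.1 : ℚ) ^ c * (p.2.descFactorial d : ℚ)) *
      ∑ y ∈ range (n + 1), ((p.2 - d).choose y : ℚ) * (taylor 1 (G p)).coeff (n - y) = 0 := by
  have h1 := hmf _ (PF_desc (K := ℚ) (a := c) (b := d) (w := m) hcd)
  have h2 : X ^ d * ∑ p ∈ S, ((p.1 : ℚ) ^ c * (p.2.descFactorial d : ℚ)) •
      (G p * X ^ (p.2 - d)) = 0 := by
    rw [mul_sum]
    refine Eq.trans (sum_congr rfl fun p _ => ?_) h1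
    simp only
    rw [desc_cast]
    rcases le_or_gt d p.2 with h3 | h3
    · have : (X : ℚ[X]) ^ p.2 = X ^ d * X ^ (p.2 - d) := by rw [← pow_add]; congr 1; omega
      rw [this, mul_smul_comm]
      congr 1
      ring
    · rw [Nat.descFactorial_eq_zero_iff_lt.2 h3]; simp
  have h3 := (mul_eq_zero.1 h2).resolve_left (pow_ne_zero _ X_ne_zero)
  have h4 := congrArg (fun q => (taylor 1 q).coeff n) h3
  simp only [map_sum, map_smul, finsetSum_coeff, coeff_smul, map_zero, coeff_zero, taylor_mul,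
    taylor_X_pow, smul_eq_mul, C_1] at h4
  refine Eq.trans (sum_congr rfl fun p _ => ?_) h4
  congr 1
  rw [mul_comm (taylor 1 (G p)), coeff_mul,
    Nat.sum_antidiagonal_eq_sum_range_succ
      (fun x y => ((X + 1 : ℚ[X]) ^ (p.2 - d)).coeff x * (taylor 1 (G p)).coeff y)]
  refine sum_congr rfl fun y _ => ?_
  rw [coeff_X_add_one_pow]

end Pool.Agent.Q195.WN
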